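import Pool.Agent.MP_4388f3_co.Key

/-! Homomorphism densities are, up to constants, pure powers of the edge density. -/

set_option linter.unusedSectionVars false

namespace Pool.Agent.MP_4388f3_co

open Finset Function

variable {V : Type} [Fintype V] [DecidableEq V] {σ : V → Bool} {e : V → V → Prop}

/-- Passing from `S` to `S'` costs at most a constant times `x ^ k` for homomorphisms. -/
def Low (σ : V → Bool) (e : V → V → Prop) (S S' : Finset V) (k : ℕ) : Prop :=
  ∃ c : ℝ, 0 < c ∧ ∀ G : Geo, c * G.x ^ k * dens (Hom σ e S G) ≤ dens (Hom σ e S' G)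

lemma Low.weaken {S S' : Finset V} {j k : ℕ} (h : Low σ e S S' j) (hjk : j ≤ k) :
    Low σ e S S' k := by
  obtain ⟨c, hc, h⟩ := h
  refine ⟨c, hc, fun G => le_trans ?_ (h G)⟩
  exact mul_le_mul_of_nonneg_right (mul_le_mul_of_nonneg_left (G.pow_anti hjk) hc.le)
    (dens_nonneg _)

lemma bool_ne {a b c : Bool} (h1 : a ≠ b) (h2 : a ≠ c) : b = c := by
  revert h1 h2
  cases a <;> cases b <;> cases c <;> simp

/-- A map that sends the part `T` into one edge star extends a homomorphism of the rest. -/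
lemma hom_of_star (he : Bip σ e) {W T : Finset V} {z c : V}
    (hout : ∀ u ∈ T, ∀ w ∈ W, e u w → w ∈ T ∨ w = z) {G : Geo} {φ : V → G.X}
    (hφ : Hom σ e (W \ T) G φ) (hc : G.side (φ c) = σ c)
    (hcol : ∀ u, u ∈ T ∨ u = z → (σ u = σ c → φ u = φ c) ∧ (σ u ≠ σ c → G.adj (φ c) (φ u))) :
    Hom σ e W G φ := by
  have hedge : ∀ a b, (a ∈ T ∨ a = z) → (b ∈ T ∨ b = z) → e a b → G.adj (φ a) (φ b) := by
    intro a b ha hb hab
    have hs := he.side _ _ hab
    by_cases hac : σ a = σ c
    · rw [(hcol a ha).1 hac]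
      exact (hcol b hb).2 (fun h => hs (hac.trans h.symm))
    · have hbc : σ b = σ c := bool_ne hs hac
      rw [(hcol b hb).1 hbc]
      exact G.symm _ _ ((hcol a ha).2 hac)
  constructor
  · intro v hv
    by_cases hvT : v ∈ T
    · by_cases hvc : σ v = σ c
      · rw [(hcol v (Or.inl hvT)).1 hvc, hc, hvc]
      · exact G.side_of_adj ((hcol v (Or.inl hvT)).2 hvc) (by rw [hc]; exact Ne.symm hvc)
    · exact hφ.1 v (mem_sdiff.mpr ⟨hv, hvT⟩)
  · intro a ha b hb hab
    by_cases haT : a ∈ T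
    · exact hedge a b (Or.inl haT) (hout a haT b hb hab) hab
    · by_cases hbT : b ∈ T
      · exact hedge a b (hout b hbT a ha (he.symm _ _ hab)) (Or.inl hbT) hab
      · exact hφ.2 a (mem_sdiff.mpr ⟨ha, haT⟩) b (mem_sdiff.mpr ⟨hb, hbT⟩) hab

lemma hom_sdiff_update {W T : Finset V} {G : Geo} {u : V} (hu : u ∈ T) (φ : V → G.X) (y : G.X)
    (h : Hom σ e (W \ T) G φ) : Hom σ e (W \ T) G (update φ u y) :=
  h.congr (fun a ha => (update_of_notMem (by simp [hu]) φ y a ha).symm)

lemma low_one (he : Bip σ e) {W T : Finset V} {z : V} (hz : z ∈ W) (hzT : z ∉ T)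
    (hout : ∀ u ∈ T, ∀ w ∈ W, e u w → w ∈ T ∨ w = z) :
    Low σ e (W \ T) W (∑ u ∈ T, if σ u = σ z then 2 else 1) := by
  refine ⟨(1 / 4) ^ T.card, by positivity, fun G => ?_⟩
  refine (col_low z G (Hom σ e (W \ T) G) T hzT
    (fun u hu φ y h => hom_sdiff_update hu φ y h)).trans (dens_mono ?_)
  rintro φ ⟨h1, h2⟩
  refine hom_of_star he hout h1 (c := z) (h1.1 z (mem_sdiff.mpr ⟨hz, hzT⟩)) ?_
  rintro u (hu | rfl)
  · exact h2 u hu
  · exact ⟨fun _ => rfl, fun h => absurd rfl h⟩

lemma low_two (he : Bip σ e) {W T : Finset V} {z y₀ : V} (hz : z ∈ W) (hzT : z ∉ T)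
    (hout : ∀ u ∈ T, ∀ w ∈ W, e u w → w ∈ T ∨ w = z) (hy : y₀ ∈ T) (hs : σ y₀ ≠ σ z) :
    Low σ e (W \ T) W (1 + ∑ u ∈ T.erase y₀, if σ u = σ y₀ then 2 else 1) := by
  refine ⟨(1 / 4) ^ (T.erase y₀).card * (1 / 4), by positivity, fun G => ?_⟩
  have hzy : z ≠ y₀ := by rintro rfl; exact hzT hy
  have h1 := col_low (σ := σ) z G (Hom σ e (W \ T) G) {y₀} (by simpa using hzy)
    (fun u hu φ y h => hom_sdiff_update (by rw [mem_singleton.mp hu]; exact hy) φ y h)
  have h2 := col_low (σ := σ) y₀ G (fun φ => Hom σ e (W \ T) G φ ∧ Col σ z {y₀} G φ)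
    (T.erase y₀) (by simp) (by
      intro u hu φ y h
      obtain ⟨huy, huT⟩ := mem_erase.mp hu
      refine ⟨hom_sdiff_update huT φ y h.1, ?_⟩
      intro a ha
      rw [mem_singleton] at ha
      subst ha
      have huz : z ≠ u := by rintro rfl; exact hzT huT
      rw [update_of_ne huy.symm, update_of_ne huz]
      exact h.2 a (by simp))
  simp only [card_singleton, pow_one, sum_singleton, if_neg hs] at h1
  have hx := G.x_pos
  calc _ = (1 / 4) ^ (T.erase y₀).card *
          G.x ^ (∑ u ∈ T.erase y₀, if σ u = σ y₀ then 2 else 1) *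
          (1 / 4 * G.x * dens (Hom σ e (W \ T) G)) := by ring
    _ ≤ (1 / 4) ^ (T.erase y₀).card *
          G.x ^ (∑ u ∈ T.erase y₀, if σ u = σ y₀ then 2 else 1) *
          dens (fun φ => Hom σ e (W \ T) G φ ∧ Col σ z {y₀} G φ) := by gcongr
    _ ≤ _ := h2
    _ ≤ _ := by
      apply dens_mono
      rintro φ ⟨⟨h1, h2⟩, h3⟩
      have hzy' : G.adj (φ z) (φ y₀) := (h2 y₀ (by simp)).2 hs
      have hzs : G.side (φ z) = σ z := h1.1 z (mem_sdiff.mpr ⟨hz, hzT⟩)
      refine hom_of_star he hout h1 (c := y₀)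
        (G.side_of_adj hzy' (by rw [hzs]; exact hs.symm)) ?_
      rintro u (hu | rfl)
      · by_cases huy : u = y₀
        · subst huy
          exact ⟨fun _ => rfl, fun h => absurd rfl h⟩
        · exact h3 u (mem_erase.mpr ⟨huy, hu⟩)
      · exact ⟨fun h => absurd h.symm hs, fun _ => G.symm _ _ hzy'⟩

lemma exponent_sum {T : Finset V} {z y₀ : V} (hy : y₀ ∈ T) (hs : σ y₀ ≠ σ z) :
    (∑ u ∈ T, if σ u = σ z then 2 else 1) +
      (1 + ∑ u ∈ T.erase y₀, if σ u = σ y₀ then 2 else 1) + 1 = 3 * T.card := by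
  have h1 := add_sum_erase T (fun u => if σ u = σ y₀ then 2 else 1) hy
  simp only [if_true] at h1
  have h2 : (∑ u ∈ T, if σ u = σ z then 2 else 1) + (∑ u ∈ T, if σ u = σ y₀ then 2 else 1)
      = ∑ _u ∈ T, 3 := by
    rw [← sum_add_distrib]
    apply sum_congr rfl
    intro u _
    revert hs
    cases σ u <;> cases σ z <;> cases σ y₀ <;> simp
  rw [sum_const, smul_eq_mul] at h2
  omega

/-- A part of a graph of minimum degree at least three that can be removed. -/
lemma exists_part (he : Bip σ e) {W : Finset V} (hW : W.Nonempty)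
    (hdeg : ∀ v ∈ W, 3 ≤ deg e W v) :
    ∃ T ⊆ W, T.Nonempty ∧ ∃ j, Up σ e (W \ T) W j ∧ Low σ e (W \ T) W j := by
  classical
  let Good : Finset V → Prop := fun T => T ⊆ W ∧ T.Nonempty ∧
    ∃ z ∈ W, z ∉ T ∧ ∀ u ∈ T, ∀ w ∈ W, e u w → w ∈ T ∨ w = z
  have hex : ∃ T, Good T := by
    obtain ⟨s, hs⟩ := hW
    obtain ⟨u, hu, hus⟩ := exists_of_one_le_deg (e := e) (W := W) (v := s)
      (by have := hdeg s hs; omega)
    refine ⟨W.erase s, erase_subset _ _, ⟨u, mem_erase.mpr ⟨?_, hu⟩⟩, s, hs, by simp, ?_⟩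
    · rintro rfl
      exact he.side _ _ hus rfl
    · intro a _ w hw _
      by_cases hws : w = s
      · exact Or.inr hws
      · exact Or.inl (mem_erase.mpr ⟨hws, hw⟩)
  obtain ⟨T, hT, hTmin⟩ := exists_min_image (univ.filter Good) card
    (by obtain ⟨T, hT⟩ := hex; exact ⟨T, by simpa using hT⟩)
  rw [mem_filter] at hT
  obtain ⟨hTW, hTne, z, hz, hzT, hout⟩ := hT.2
  have hmin : ∀ K ⊆ T, K.Nonempty → K ≠ T → ∀ z ∈ W, z ∉ K →
      ∃ u ∈ K, ∃ w ∈ W, e u w ∧ w ∉ K ∧ w ≠ z := by
    intro K hK hKne hKT z' hz' hz'K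
    by_contra hcon
    have hG : Good K := by
      refine ⟨hK.trans hTW, hKne, z', hz', hz'K, ?_⟩
      intro u hu w hw huw
      by_contra h2
      rw [not_or] at h2
      exact hcon ⟨u, hu, w, hw, huw, h2.1, h2.2⟩
    have h1 := hTmin K (by simpa using hG)
    have h2 := card_lt_card (Finset.ssubset_iff_subset_ne.mpr ⟨hK, hKT⟩)
    omega
  obtain ⟨t, ht⟩ := hTne
  have hconn : Conn e T t := by
    intro K hK hKne htK
    obtain ⟨u, hu, w, hw, huw, hwK, hwz⟩ := hmin K hK hKne (by rintro rfl; exact htK ht) z hz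
      (fun h => hzT (hK h))
    exact ⟨u, hu, w, (hout u (hK hu) w hw huw).resolve_right hwz, hwK, huw⟩
  obtain ⟨kf, kr, hk, hf, hr⟩ := order_bound he hTW ht (fun v hv => hdeg v (hTW hv)) hmin
    _ T Subset.rfl rfl ht hconn
  rw [sdiff_union_of_subset hTW] at hr
  have hy : ∃ y₀ ∈ T, σ y₀ ≠ σ z := by
    by_cases htz : σ t = σ z
    · obtain ⟨u, hu, hut⟩ := exists_of_one_le_deg (e := e) (W := W) (v := t)
        (by have := hdeg t (hTW ht); omega)
      have hs : σ u ≠ σ z := htz ▸ he.side _ _ hut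
      exact ⟨u, (hout t ht u hu (he.symm _ _ hut)).resolve_right (by rintro rfl; exact hs rfl), hs⟩
    · exact ⟨t, ht, htz⟩
  obtain ⟨y₀, hy, hs⟩ := hy
  have l1 := low_one he hz hzT hout
  have l2 := low_two he hz hzT hout hy hs
  have hsum := exponent_sum hy hs
  refine ⟨T, hTW, ⟨t, ht⟩, max kf kr, ?_, ?_⟩
  · rcases le_total kf kr with h | h
    · rw [max_eq_right h]; exact hr
    · rw [max_eq_left h]; exact hf
  · by_cases h : (∑ u ∈ T, if σ u = σ z then 2 else 1) ≤ max kf kr
    · exact l1.weaken h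
    · refine l2.weaken ?_
      omega

/-- The key lemma. -/
lemma key (he : Bip σ e) (W : Finset V) :
    ∃ (k : ℕ) (c : ℝ), 0 < c ∧ ∀ G : Geo,
      dens (Inj σ e W G) ≤ G.x ^ k ∧ c * G.x ^ k ≤ dens (Hom σ e W G) := by
  induction W using Finset.strongInduction with
  | H W ih =>
    rcases W.eq_empty_or_nonempty with rfl | hW
    · refine ⟨0, 1, one_pos, fun G => ⟨by simpa using dens_le_one _, ?_⟩⟩
      rw [dens_true (fun φ => by simp [Hom])]
      simp
    have hpart : ∃ T ⊆ W, T.Nonempty ∧ ∃ j, Up σ e (W \ T) W j ∧ Low σ e (W \ T) W j := by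
      by_cases hdeg : ∀ v ∈ W, 3 ≤ deg e W v
      · exact exists_part he hW hdeg
      · push Not at hdeg
        obtain ⟨v, hv, hd⟩ := hdeg
        have hv' : v ∉ W \ {v} := by simp
        have hd' : deg e (W \ {v}) v ≤ 2 := by
          have := deg_mono (e := e) (sdiff_subset : W \ {v} ⊆ W) v
          omega
        have e1 : insert v (W \ {v}) = W := by
          rw [sdiff_singleton_eq_erase, insert_erase hv]
        refine ⟨{v}, by simpa using hv, by simp, deg e (W \ {v}) v, ?_, 1 / 4, by norm_num, ?_⟩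
        · intro G
          have := up_step (σ := σ) hv' hd' le_rfl G
          rwa [e1] at this
        · intro G
          have := low_step he hv' hd' G
          rwa [e1] at this
    obtain ⟨T, hTW, hTne, j, hup, c', hc', hlow⟩ := hpart
    obtain ⟨k, c, hc, h⟩ := ih (W \ T) (sdiff_ssubset hTW hTne)
    refine ⟨j + k, c' * c, by positivity, fun G => ⟨?_, ?_⟩⟩
    · have hx := G.x_pos
      calc _ ≤ _ := hup G
        _ ≤ G.x ^ j * G.x ^ k := by gcongr; exact (h G).1
        _ = _ := by ring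
    · have hx := G.x_pos
      calc _ = c' * G.x ^ j * (c * G.x ^ k) := by ring
        _ ≤ c' * G.x ^ j * dens (Hom σ e (W \ T) G) := by gcongr; exact (h G).2
        _ ≤ _ := hlow G

/-- `f` is a pure power of the edge density up to constant factors. -/
def Theta (f : Geo → ℝ) : Prop :=
  ∃ (k : ℕ) (c C : ℝ), 0 < c ∧ 0 < C ∧ ∀ G : Geo, c * G.x ^ k ≤ f G ∧ f G ≤ C * G.x ^ k

lemma Theta.pow (k : ℕ) : Theta (fun G => G.x ^ k) :=
  ⟨k, 1, 1, one_pos, one_pos, fun G => by simp⟩

lemma Theta.add {f g : Geo → ℝ} (hf : Theta f) (hg : Theta g) : Theta (fun G => f G + g G) := by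
  obtain ⟨k, c, C, hc, hC, h⟩ := hf
  obtain ⟨k', c', C', hc', hC', h'⟩ := hg
  refine ⟨min k k', min c c', C + C', lt_min hc hc', by positivity, fun G => ⟨?_, ?_⟩⟩
  · have hx := G.x_pos
    have h1 : 0 ≤ f G := le_trans (by positivity) (h G).1
    have h2 : 0 ≤ g G := le_trans (by positivity) (h' G).1
    rcases le_total k k' with hk | hk
    · rw [min_eq_left hk]
      have : min c c' * G.x ^ k ≤ c * G.x ^ k := by gcongr; exact min_le_left _ _
      linarith [(h G).1]
    · rw [min_eq_right hk]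
      have : min c c' * G.x ^ k' ≤ c' * G.x ^ k' := by gcongr; exact min_le_right _ _
      linarith [(h' G).1]
  · have h1 : C * G.x ^ k ≤ C * G.x ^ min k k' :=
      mul_le_mul_of_nonneg_left (G.pow_anti (min_le_left _ _)) hC.le
    have h2 : C' * G.x ^ k' ≤ C' * G.x ^ min k k' :=
      mul_le_mul_of_nonneg_left (G.pow_anti (min_le_right _ _)) hC'.le
    linarith [(h G).2, (h' G).2]

lemma Theta.sandwich {f g : Geo → ℝ} (hf : Theta f) {a b : ℝ} (ha : 0 < a) (hb : 0 < b) (j : ℕ)
    (h : ∀ G, a * G.x ^ j * f G ≤ g G ∧ g G ≤ b * G.x ^ j * f G) : Theta g := by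
  obtain ⟨k, c, C, hc, hC, hf⟩ := hf
  refine ⟨j + k, a * c, b * C, by positivity, by positivity, fun G => ⟨?_, ?_⟩⟩
  · have hx := G.x_pos
    calc _ = a * G.x ^ j * (c * G.x ^ k) := by ring
      _ ≤ a * G.x ^ j * f G := by gcongr; exact (hf G).1
      _ ≤ _ := (h G).1
  · have hx := G.x_pos
    calc _ ≤ b * G.x ^ j * f G := (h G).2
      _ ≤ b * G.x ^ j * (C * G.x ^ k) := by gcongr; exact (hf G).2
      _ = _ := by ring

lemma Theta.sum {ι : Type} [DecidableEq ι] {f₀ : Geo → ℝ} (h₀ : Theta f₀) (f : ι → Geo → ℝ)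
    (s : Finset ι) (h : ∀ i ∈ s, Theta (f i)) : Theta (fun G => f₀ G + ∑ i ∈ s, f i G) := by
  induction s using Finset.induction_on with
  | empty => simpa using h₀
  | insert i s hi ih =>
    have := (h i (mem_insert_self _ _)).add (ih (fun j hj => h j (mem_insert_of_mem hj)))
    convert this using 2 with G
    rw [sum_insert hi]
    ring

/-- The relation obtained by identifying `u'` with `u`. -/
def merge (e : V → V → Prop) (u u' : V) : V → V → Prop :=
  fun a b => e a b ∨ (a = u ∧ e u' b) ∨ (b = u ∧ e a u')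

lemma merge_bip (he : Bip σ e) {u u' : V} (hs : σ u = σ u') : Bip σ (merge e u u') := by
  constructor
  · rintro a b (h | ⟨rfl, h⟩ | ⟨rfl, h⟩)
    · exact Or.inl (he.symm _ _ h)
    · exact Or.inr (Or.inr ⟨rfl, he.symm _ _ h⟩)
    · exact Or.inr (Or.inl ⟨rfl, he.symm _ _ h⟩)
  · rintro a b (h | ⟨rfl, h⟩ | ⟨rfl, h⟩)
    · exact he.side _ _ h
    · rw [hs]; exact he.side _ _ h
    · rw [hs]; exact he.side _ _ h

lemma merge_iff (he : Bip σ e) {W : Finset V} {u u' : V} (hu : u ∈ W) (hu' : u' ∈ W)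
    (hne : u ≠ u') (hs : σ u = σ u') {G : Geo} (φ : V → G.X) :
    (Hom σ e W G φ ∧ φ u = φ u') ↔ (Hom σ (merge e u u') (W.erase u') G φ ∧ φ u' = φ u) := by
  constructor
  · rintro ⟨h, hφ⟩
    refine ⟨⟨fun v hv => h.1 v (mem_of_mem_erase hv), ?_⟩, hφ.symm⟩
    rintro a ha b hb (hab | ⟨rfl, hab⟩ | ⟨rfl, hab⟩)
    · exact h.2 a (mem_of_mem_erase ha) b (mem_of_mem_erase hb) hab
    · rw [hφ]; exact h.2 u' hu' b (mem_of_mem_erase hb) hab
    · rw [hφ]; exact h.2 a (mem_of_mem_erase ha) u' hu' hab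
  · rintro ⟨h, hφ⟩
    have hu2 : u ∈ W.erase u' := mem_erase.mpr ⟨hne, hu⟩
    refine ⟨⟨?_, ?_⟩, hφ.symm⟩
    · intro v hv
      by_cases hvu : v = u'
      · rw [hvu, hφ, ← hs]; exact h.1 u hu2
      · exact h.1 v (mem_erase.mpr ⟨hvu, hv⟩)
    · intro a ha b hb hab
      by_cases hau : a = u'
      · have hbu : b ≠ u' := by
          rintro rfl
          exact he.side _ _ hab (by rw [hau])
        rw [hau, hφ]
        exact h.2 u hu2 b (mem_erase.mpr ⟨hbu, hb⟩) (Or.inr (Or.inl ⟨rfl, hau ▸ hab⟩))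
      · by_cases hbu : b = u'
        · rw [hbu, hφ]
          exact h.2 a (mem_erase.mpr ⟨hau, ha⟩) u hu2 (Or.inr (Or.inr ⟨rfl, hbu ▸ hab⟩))
        · exact h.2 a (mem_erase.mpr ⟨hau, ha⟩) b (mem_erase.mpr ⟨hbu, hb⟩) (Or.inl hab)

lemma theta_hom (σ : V → Bool) : ∀ n : ℕ, ∀ W : Finset V, W.card = n →
    ∀ e : V → V → Prop, Bip σ e → Theta (fun G => dens (Hom σ e W G)) := by
  intro n
  induction n using Nat.strong_induction_on with
  | _ n ih =>
    intro W hW e he
    classical
    let s : Finset (V × V) := (W ×ˢ W).filter (fun p => p.1 ≠ p.2 ∧ σ p.1 = σ p.2)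
    let f : V × V → Geo → ℝ := fun p G => dens (fun φ => Hom σ e W G φ ∧ φ p.1 = φ p.2)
    have hf : ∀ p ∈ s, Theta (f p) := by
      rintro ⟨u, u'⟩ hp
      simp only [s, mem_filter, mem_product] at hp
      obtain ⟨⟨hu, hu'⟩, hne, hs⟩ := hp
      have hlt : (W.erase u').card < n := hW ▸ card_erase_lt_of_mem hu'
      have h1 := ih _ hlt (W.erase u') rfl _ (merge_bip he hs)
      refine h1.sandwich (a := 1 / 4) (b := 1) (by norm_num) one_pos 2 (fun G => ?_)
      have hrw : (fun φ : V → G.X => Hom σ e W G φ ∧ φ u = φ u') =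
          (fun φ => Hom σ (merge e u u') (W.erase u') G φ ∧ φ u' = φ u) := by
        funext φ
        exact propext (merge_iff he hu hu' hne hs φ)
      simp only [f]
      rw [hrw]
      have hn := dens_nonneg (Hom σ (merge e u u') (W.erase u') G)
      have hupd : ∀ (φ : V → G.X) (y : G.X), ∀ a ∈ W.erase u', update φ u' y a = φ a :=
        fun φ y => update_of_notMem (by simp) φ y
      constructor
      · have := dens_low u' (r := 1) (Φ := Hom σ (merge e u u') (W.erase u') G)
          (Ψ := fun φ => Hom σ (merge e u u') (W.erase u') G φ ∧ φ u' = φ u)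
          (fun φ h => one_le_cnt (a := φ u)
            ⟨h.congr (fun a ha => (hupd φ _ a ha).symm), by simp [update_of_ne hne]⟩)
        refine le_trans ?_ this
        have := G.r2_low
        gcongr
      · have := dens_up u' (r := 1) (Φ := Hom σ (merge e u u') (W.erase u') G)
          (Ψ := fun φ => Hom σ (merge e u u') (W.erase u') G φ ∧ φ u' = φ u)
          (fun φ y h => h.1.congr (hupd φ y))
          (fun φ _ => cnt_le_one (fun y y' h h' => by
            have h1 := h.2
            have h2 := h'.2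
            simp only [update_self, update_of_ne hne] at h1 h2
            rw [h1, h2]))
        refine this.trans ?_
        rw [one_mul]
        have := G.r2_up
        gcongr
    obtain ⟨k, c, hc, hk⟩ := key he W
    have hS := (Theta.pow k).sum f s hf
    refine hS.sandwich (a := min c 1 / (s.card + 1)) (b := 1)
      (by have := lt_min hc one_pos; positivity) one_pos 0 (fun G => ⟨?_, ?_⟩)
    · have hx := G.x_pos
      have hm : 0 < min c 1 := lt_min hc one_pos
      have h1 : min c 1 * G.x ^ k ≤ dens (Hom σ e W G) :=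
        le_trans (by gcongr; exact min_le_left _ _) (hk G).2
      have h2 : ∑ p ∈ s, f p G ≤ s.card * dens (Hom σ e W G) := by
        rw [← nsmul_eq_mul]
        exact sum_le_card_nsmul _ _ _ (fun p _ => dens_mono (fun φ h => h.1))
      have h3 : 0 ≤ ∑ p ∈ s, f p G := sum_nonneg (fun p _ => dens_nonneg _)
      have h4 : min c 1 * ∑ p ∈ s, f p G ≤ ∑ p ∈ s, f p G := by
        have := min_le_right c 1
        nlinarith
      rw [pow_zero, mul_one, div_mul_eq_mul_div, div_le_iff₀ (by positivity)]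
      nlinarith
    · have := dens_cover (Φ := Hom σ e W G) (Φ₀ := Inj σ e W G) s
        (fun p φ => Hom σ e W G φ ∧ φ p.1 = φ p.2) (fun φ h => by
          by_cases hi : ∀ u ∈ W, ∀ v ∈ W, φ u = φ v → u = v
          · exact Or.inl ⟨h, hi⟩
          · push Not at hi
            obtain ⟨u, hu, v, hv, huv, hne⟩ := hi
            refine Or.inr ⟨(u, v), ?_, h, huv⟩
            simp only [s, mem_filter, mem_product]
            exact ⟨⟨hu, hv⟩, hne, by rw [← h.1 u hu, ← h.1 v hv, huv]⟩)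
      simp only [pow_zero, mul_one, one_mul]
      linarith [(hk G).1]

/-- A graph with an edge has density at most the edge density. -/
lemma dens_le_x {W : Finset V} {a b : V} (ha : a ∈ W) (hb : b ∈ W) (he : Bip σ e) (hab : e a b)
    (G : Geo) : dens (Hom σ e W G) ≤ G.x := by
  have hne : a ≠ b := by rintro rfl; exact he.side _ _ hab rfl
  have := dens_up b (r := G.D) (Φ := fun _ : V → G.X => True) (Ψ := Hom σ e W G)
    (fun _ _ _ => trivial) (fun φ _ => by
      rw [← G.card_adj (φ a)]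
      refine cnt_mono (fun y h => ?_)
      have := h.2 a ha b hb hab
      rwa [update_of_ne hne, update_self] at this)
  rw [G.r1, dens_true (fun _ => trivial)] at this
  linarith [G.x_pos]

end Pool.Agent.MP_4388f3_co
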