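import Pool.Agent.MP_4388f3_co.Defs
import Pool.Agent.MP_4388f3_co.Theta

/-! From projective planes to the structures of the counting lemmas. -/

set_option linter.style.haveILetI false

namespace Pool.Agent.MP_4388f3_co

open Finset Function Filter Topology

lemma plane_counts {G : BipGraph} {m : ℕ} (h : IsPlaneOfOrder G m) :
    Nat.card G.V₁ = m ^ 2 + m + 1 ∧ Nat.card G.V₂ = m ^ 2 + m + 1 ∧
      (∀ p : G.V₁, Nat.card {l : G.V₂ // G.E p l} = m + 1) ∧ 1 < m := by
  classical
  obtain ⟨h1, h2, ⟨x, hx, h3⟩, h4⟩ := h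
  haveI := G.finite₁
  haveI := G.finite₂
  letI := Fintype.ofFinite G.V₁
  letI := Fintype.ofFinite G.V₂
  letI : Membership G.V₁ G.V₂ := ⟨fun l p => G.E p l⟩
  have hmem : ∀ (p : G.V₁) (l : G.V₂), p ∈ l ↔ G.E p l := fun _ _ => Iff.rfl
  have hline : ∀ i j : Fin 4, i ≠ j → ∃ l, G.E (x i) l ∧ G.E (x j) l :=
    fun i j hij => (h1 _ _ (hx.ne hij)).exists
  have huniq : ∀ {p₁ p₂ : G.V₁} {l₁ l₂ : G.V₂}, G.E p₁ l₁ → G.E p₂ l₁ → G.E p₁ l₂ → G.E p₂ l₂ →
      p₁ = p₂ ∨ l₁ = l₂ := by
    intro p₁ p₂ l₁ l₂ a b c d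
    by_cases hp : p₁ = p₂
    · exact Or.inl hp
    · exact Or.inr ((h1 _ _ hp).unique ⟨a, b⟩ ⟨c, d⟩)
  obtain ⟨l01, h01⟩ := hline 0 1 (by decide)
  obtain ⟨l02, h02⟩ := hline 0 2 (by decide)
  obtain ⟨l12, h12⟩ := hline 1 2 (by decide)
  obtain ⟨l03, h03⟩ := hline 0 3 (by decide)
  obtain ⟨l13, h13⟩ := hline 1 3 (by decide)
  letI nd : Configuration.Nondegenerate G.V₁ G.V₂ :=
    { exists_point := fun l => by
        by_contra hc
        push Not at hc
        exact h3 l 0 1 2 (by decide) (by decide) (by decide) ⟨hc _, hc _, hc _⟩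
      exists_line := fun p => by
        by_contra hc
        push Not at hc
        have a : p = x 0 := by
          rcases huniq (hc l01) h01.1 (hc l02) h02.1 with h | h
          · exact h
          · exact absurd ⟨h01.1, h01.2, h ▸ h02.2⟩
              (h3 l01 0 1 2 (by decide) (by decide) (by decide))
        exact h3 l12 0 1 2 (by decide) (by decide) (by decide) ⟨a ▸ hc l12, h12.1, h12.2⟩
      eq_or_eq := huniq }
  letI pp : Configuration.ProjectivePlane G.V₁ G.V₂ :=
    { nd with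
      mkPoint := fun {l₁ l₂} hl => (h2 l₁ l₂ hl).exists.choose
      mkPoint_ax := fun {l₁ l₂} hl => (h2 l₁ l₂ hl).exists.choose_spec
      mkLine := fun {p₁ p₂} hp => (h1 p₁ p₂ hp).exists.choose
      mkLine_ax := fun {p₁ p₂} hp => (h1 p₁ p₂ hp).exists.choose_spec
      exists_config := ⟨x 0, x 1, x 2, l03, l12, l13,
        fun h => h3 l12 0 1 2 (by decide) (by decide) (by decide) ⟨h, h12.1, h12.2⟩,
        fun h => h3 l13 0 1 3 (by decide) (by decide) (by decide) ⟨h, h13.1, h13.2⟩,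
        fun h => h3 l03 0 1 3 (by decide) (by decide) (by decide) ⟨h03.1, h, h03.2⟩,
        h12.1, h13.1,
        fun h => h3 l03 0 2 3 (by decide) (by decide) (by decide) ⟨h03.1, h, h03.2⟩,
        h12.2,
        fun h => h3 l13 1 2 3 (by decide) (by decide) (by decide) ⟨h13.1, h, h13.2⟩⟩ }
  have hord : Configuration.ProjectivePlane.order G.V₁ G.V₂ = m := by
    have a := Configuration.ProjectivePlane.pointCount_eq G.V₁ l01
    have b : Configuration.pointCount G.V₁ l01 = m + 1 := h4 l01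
    omega
  refine ⟨?_, ?_, fun p => ?_, ?_⟩
  · rw [Nat.card_eq_fintype_card, Configuration.ProjectivePlane.card_points G.V₁ G.V₂, hord]
  · rw [Nat.card_eq_fintype_card, Configuration.ProjectivePlane.card_lines G.V₁ G.V₂, hord]
  · rw [← hord]
    exact Configuration.ProjectivePlane.lineCount_eq G.V₂ p
  · rw [← hord]
    exact Configuration.ProjectivePlane.one_lt_order G.V₁ G.V₂

/-- The symmetric relation on the disjoint union of the two classes. -/
def sumRel {A B : Type} (E : A → B → Prop) : A ⊕ B → A ⊕ B → Prop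
  | .inl a, .inr b => E a b
  | .inr b, .inl a => E a b
  | _, _ => False

lemma sumRel_bip {A B : Type} (E : A → B → Prop) : Bip Sum.isRight (sumRel E) := by
  constructor
  · rintro (a | a) (b | b) h <;> exact h
  · rintro (a | a) (b | b) h <;> first | exact h.elim | simp

lemma cnt_inl {A B : Type} [Fintype (A ⊕ B)] (Φ : A ⊕ B → Prop) (h : ∀ b, ¬ Φ (.inr b)) :
    cnt Φ = Nat.card {a // Φ (.inl a)} := by
  rw [cnt_eq_natCard]
  symm
  refine Nat.card_eq_of_bijective (fun a => ⟨.inl a.1, a.2⟩) ⟨?_, ?_⟩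
  · intro a b hab
    simpa [Subtype.ext_iff] using hab
  · rintro ⟨a | b, hb⟩
    · exact ⟨⟨a, hb⟩, rfl⟩
    · exact absurd hb (h b)

lemma cnt_inr {A B : Type} [Fintype (A ⊕ B)] (Φ : A ⊕ B → Prop) (h : ∀ a, ¬ Φ (.inl a)) :
    cnt Φ = Nat.card {b // Φ (.inr b)} := by
  rw [cnt_eq_natCard]
  symm
  refine Nat.card_eq_of_bijective (fun a => ⟨.inr a.1, a.2⟩) ⟨?_, ?_⟩
  · intro a b hab
    simpa [Subtype.ext_iff] using hab
  · rintro ⟨a | b, hb⟩
    · exact absurd hb (h a)
    · exact ⟨⟨b, hb⟩, rfl⟩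

/-- The structure attached to a projective plane. -/
noncomputable def geo {G : BipGraph} {m : ℕ} (h : IsPlaneOfOrder G m) : Geo :=
  haveI := G.finite₁
  haveI := G.finite₂
  { X := G.V₁ ⊕ G.V₂
    fin := Fintype.ofFinite _
    ne := by obtain ⟨-, -, ⟨x, -⟩, -⟩ := h; exact ⟨.inl (x 0)⟩
    side := Sum.isRight
    adj := sumRel G.E
    N := m ^ 2 + m + 1
    D := m + 1
    symm := (sumRel_bip G.E).symm
    adj_side := (sumRel_bip G.E).side
    card_X := by
      rw [← @Nat.card_eq_fintype_card _ (Fintype.ofFinite _), Nat.card_sum, (plane_counts h).1,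
        (plane_counts h).2.1]
      ring
    card_side := by
      letI := Fintype.ofFinite (G.V₁ ⊕ G.V₂)
      rintro (_ | _)
      · rw [cnt_inl _ (by simp), ← (plane_counts h).1]
        simp
      · rw [cnt_inr _ (by simp), ← (plane_counts h).2.1]
        simp
    card_adj := by
      letI := Fintype.ofFinite (G.V₁ ⊕ G.V₂)
      rintro (p | l)
      · rw [cnt_inr _ (fun a h => h)]
        exact (plane_counts h).2.2.1 p
      · rw [cnt_inl _ (fun a h => h)]
        exact h.2.2.2 l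
    uniq := by
      rintro (x | x) (y | y) (z | z) (w | w) hxy h1 h2 h3 h4 <;>
        first
        | exact h1.elim
        | exact h2.elim
        | exact h3.elim
        | skip
      · rw [(h.1 x y (fun hh => hxy (by rw [hh]))).unique ⟨h1, h2⟩ ⟨h3, h4⟩]
      · rw [(h.2.1 x y (fun hh => hxy (by rw [hh]))).unique ⟨h1, h2⟩ ⟨h3, h4⟩]
    ex := by
      rintro (x | x) (y | y) hs
      · by_cases hxy : x = y
        · subst hxy
          have h1 := (plane_counts h).2.2.1 x
          obtain ⟨⟨l, hl⟩⟩ := (Nat.card_pos_iff.mp (by rw [h1]; omega) :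
            Nonempty {l : G.V₂ // G.E x l} ∧ _).1
          exact ⟨.inr l, hl, hl⟩
        · obtain ⟨l, hl⟩ := (h.1 x y hxy).exists
          exact ⟨.inr l, hl⟩
      · simp at hs
      · simp at hs
      · by_cases hxy : x = y
        · subst hxy
          have h1 := h.2.2.2 x
          obtain ⟨⟨l, hl⟩⟩ := (Nat.card_pos_iff.mp (by rw [h1]; omega) :
            Nonempty {p : G.V₁ // G.E p x} ∧ _).1
          exact ⟨.inl l, hl, hl⟩
        · obtain ⟨l, hl⟩ := (h.2.1 x y hxy).exists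
          exact ⟨.inl l, hl⟩
    N_pos := by positivity
    D_pos := by positivity
    D_le := by nlinarith
    N_le := by nlinarith
    sq_le := by nlinarith }

lemma homDensity_eq (H : BipGraph) [Fintype (H.V₁ ⊕ H.V₂)] [DecidableEq (H.V₁ ⊕ H.V₂)]
    {G : BipGraph} {m : ℕ} (h : IsPlaneOfOrder G m) :
    homDensity H G = 2 ^ Fintype.card (H.V₁ ⊕ H.V₂) *
      dens (Hom Sum.isRight (sumRel H.E) univ (geo h)) := by
  haveI := H.finite₁
  haveI := H.finite₂
  have hc : homCount H G = cnt (Hom Sum.isRight (sumRel H.E) univ (geo h)) := by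
    rw [cnt_eq_natCard]
    unfold homCount
    refine Nat.card_eq_of_bijective (fun φ => ⟨Sum.map φ.1.1 φ.1.2, ?_, ?_⟩) ⟨?_, ?_⟩
    · rintro (a | b) _ <;> rfl
    · rintro (a | a) _ (b | b) _ hab
      · exact hab.elim
      · exact φ.2 a b hab
      · exact φ.2 b a hab
      · exact hab.elim
    · rintro ⟨⟨f, g⟩, hf⟩ ⟨⟨f', g'⟩, hf'⟩ hh
      have hh' : Sum.map f g = Sum.map f' g' := congrArg Subtype.val hh
      have h1 : f = f' := funext fun a => Sum.inl.inj (congrFun hh' (.inl a))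
      have h2 : g = g' := funext fun a => Sum.inr.inj (congrFun hh' (.inr a))
      subst h1 h2
      rfl
    · rintro ⟨φ, hφ⟩
      have h1 : ∀ a : H.V₁, ∃ p : G.V₁, φ (.inl a) = .inl p := by
        intro a
        have := hφ.1 (.inl a) (mem_univ _)
        rcases hh : φ (.inl a) with p | l
        · exact ⟨p, rfl⟩
        · rw [hh] at this
          exact absurd this (by simp [geo])
      have h2 : ∀ a : H.V₂, ∃ p : G.V₂, φ (.inr a) = .inr p := by
        intro a
        have := hφ.1 (.inr a) (mem_univ _)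
        rcases hh : φ (.inr a) with p | l
        · rw [hh] at this
          exact absurd this (by simp [geo])
        · exact ⟨l, rfl⟩
      choose f hf using h1
      choose g hg using h2
      refine ⟨⟨(f, g), fun a b hab => ?_⟩, ?_⟩
      · have := hφ.2 (.inl a) (mem_univ _) (.inr b) (mem_univ _) hab
        rw [hf, hg] at this
        exact this
      · apply Subtype.ext
        funext v
        rcases v with a | b
        · exact (hf a).symm
        · exact (hg b).symm
  unfold homDensity dens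
  rw [hc, (geo h).card_X', (plane_counts h).1, (plane_counts h).2.1, ← pow_add, ← Nat.card_sum,
    Nat.card_eq_fintype_card, mul_pow]
  have hN : ((geo h).N : ℝ) = ((m ^ 2 + m + 1 : ℕ) : ℝ) := rfl
  rw [hN]
  field_simp

/-- Two-sided power bound for the bipartite density, uniform over all projective planes. -/
lemma density_theta (H : BipGraph) : ∃ (k : ℕ) (c C : ℝ), 0 < c ∧ 0 < C ∧
    ∀ (G : BipGraph) (m : ℕ) (h : IsPlaneOfOrder G m),
      c * (geo h).x ^ k ≤ homDensity H G ∧ homDensity H G ≤ C * (geo h).x ^ k := by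
  classical
  haveI := H.finite₁
  haveI := H.finite₂
  letI := Fintype.ofFinite (H.V₁ ⊕ H.V₂)
  obtain ⟨k, c, C, hc, hC, hh⟩ := theta_hom Sum.isRight _ univ rfl _ (sumRel_bip H.E)
  refine ⟨k, 2 ^ Fintype.card (H.V₁ ⊕ H.V₂) * c, 2 ^ Fintype.card (H.V₁ ⊕ H.V₂) * C,
    by positivity, by positivity, fun G m h => ?_⟩
  rw [homDensity_eq H h, mul_assoc, mul_assoc]
  constructor
  · gcongr; exact (hh _).1
  · gcongr; exact (hh _).2

lemma density_le (H : BipGraph) (hH : ∃ a b, H.E a b) : ∃ C : ℝ, 0 < C ∧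
    ∀ (G : BipGraph) (m : ℕ) (h : IsPlaneOfOrder G m), homDensity H G ≤ C * (geo h).x := by
  classical
  haveI := H.finite₁
  haveI := H.finite₂
  letI := Fintype.ofFinite (H.V₁ ⊕ H.V₂)
  obtain ⟨a, b, hab⟩ := hH
  refine ⟨2 ^ Fintype.card (H.V₁ ⊕ H.V₂), by positivity, fun G m h => ?_⟩
  rw [homDensity_eq H h]
  gcongr
  have hab' : sumRel H.E (.inl a) (.inr b) := hab
  exact dens_le_x (mem_univ _) (mem_univ _) (sumRel_bip H.E) hab' _

lemma x_tendsto {G : ℕ → BipGraph} {m : ℕ → ℕ} (h : ∀ n, IsPlaneOfOrder (G n) (m n))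
    (hm : Tendsto m atTop atTop) : Tendsto (fun n => (geo (h n)).x) atTop (𝓝 0) := by
  have h1 : Tendsto (fun n => ((m n : ℝ))⁻¹) atTop (𝓝 0) :=
    tendsto_inv_atTop_zero.comp (tendsto_natCast_atTop_atTop.comp hm)
  refine squeeze_zero (fun n => (geo (h n)).x_pos.le) (fun n => ?_) h1
  have h2 : (1 : ℝ) < m n := by exact_mod_cast (plane_counts (h n)).2.2.2
  have h3 : (geo (h n)).x = ((m n + 1 : ℕ) : ℝ) / ((m n ^ 2 + m n + 1 : ℕ) : ℝ) := rfl
  rw [h3, inv_eq_one_div, div_le_div_iff₀ (by positivity) (by positivity)]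
  push_cast
  nlinarith

lemma log_ratio {x t : ℕ → ℝ} (hx0 : ∀ n, 0 < x n) (hx : Tendsto x atTop (𝓝 0)) {k : ℕ}
    {c C : ℝ} (hc : 0 < c) (hC : 0 < C) (h : ∀ n, c * x n ^ k ≤ t n ∧ t n ≤ C * x n ^ k) :
    Tendsto (fun n => (-Real.log (t n)) / (-Real.log (x n))) atTop (𝓝 k) := by
  have hL : Tendsto (fun n => -Real.log (x n)) atTop atTop := by
    apply tendsto_neg_atBot_atTop.comp
    apply Real.tendsto_log_nhdsGT_zero.comp
    exact tendsto_nhdsWithin_iff.mpr ⟨hx, Eventually.of_forall hx0⟩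
  have hlim : ∀ a : ℝ, Tendsto (fun n => (k : ℝ) + a / (-Real.log (x n))) atTop (𝓝 k) := by
    intro a
    simpa using (tendsto_const_nhds (x := (k : ℝ))).add (hL.const_div_atTop a)
  refine tendsto_of_tendsto_of_tendsto_of_le_of_le' (hlim (-Real.log C)) (hlim (-Real.log c))
    ?_ ?_
  · filter_upwards [hL.eventually_gt_atTop 0] with n hn
    have hxn := hx0 n
    have htn : 0 < t n := lt_of_lt_of_le (by positivity) (h n).1
    have := Real.log_le_log htn (h n).2
    rw [Real.log_mul hC.ne' (by positivity), Real.log_pow] at this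
    rw [le_div_iff₀ hn, add_mul, div_mul_cancel₀ _ hn.ne']
    linarith
  · filter_upwards [hL.eventually_gt_atTop 0] with n hn
    have hxn := hx0 n
    have := Real.log_le_log (by positivity) (h n).1
    rw [Real.log_mul hc.ne' (by positivity), Real.log_pow] at this
    rw [div_le_iff₀ hn, add_mul, div_mul_cancel₀ _ hn.ne']
    linarith

lemma ratio_tendsto {x t₁ t₂ : ℕ → ℝ} (hx0 : ∀ n, 0 < x n) (hx : Tendsto x atTop (𝓝 0))
    {k₁ k₂ : ℕ} {c₁ C₁ c₂ C₂ C : ℝ} (hc₁ : 0 < c₁) (hC₁ : 0 < C₁) (hc₂ : 0 < c₂) (hC₂ : 0 < C₂)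
    (h₁ : ∀ n, c₁ * x n ^ k₁ ≤ t₁ n ∧ t₁ n ≤ C₁ * x n ^ k₁)
    (h₂ : ∀ n, c₂ * x n ^ k₂ ≤ t₂ n ∧ t₂ n ≤ C₂ * x n ^ k₂) (h₃ : ∀ n, t₂ n ≤ C * x n) :
    Tendsto (fun n => (-Real.log (t₁ n)) / (-Real.log (t₂ n))) atTop (𝓝 ((k₁ : ℝ) / k₂)) := by
  have hk : k₂ ≠ 0 := by
    rintro rfl
    have h4 : Tendsto (fun n => C * x n) atTop (𝓝 0) := by simpa using hx.const_mul C
    obtain ⟨n, hn⟩ := (h4.eventually (gt_mem_nhds hc₂)).exists
    have := (h₂ n).1
    simp only [pow_zero, mul_one] at this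
    linarith [h₃ n]
  have := (log_ratio hx0 hx hc₁ hC₁ h₁).div (log_ratio hx0 hx hc₂ hC₂ h₂)
    (by exact_mod_cast hk)
  refine this.congr' ?_
  filter_upwards [hx.eventually (gt_mem_nhds one_pos)] with n hn
  have hl : -Real.log (x n) ≠ 0 := by
    have := Real.log_neg (hx0 n) hn
    linarith
  simp only [Pi.div_apply]
  rw [div_div_div_cancel_right₀ hl]

end Pool.Agent.MP_4388f3_co
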