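import Mathlib

/-! Counting functions by changing one coordinate. -/

namespace Pool.Agent.MP_4388f3_co

open Finset Function

open Classical in
/-- Number of elements of a finite type with a property. -/
noncomputable def cnt {α : Type} [Fintype α] (Φ : α → Prop) : ℕ := (Finset.univ.filter Φ).card

open Classical in
lemma cnt_eq_sum {α : Type} [Fintype α] (Φ : α → Prop) :
    cnt Φ = ∑ a, if Φ a then 1 else 0 := by
  unfold cnt
  rw [Finset.card_filter]

lemma cnt_mono {α : Type} [Fintype α] {Φ Ψ : α → Prop} (h : ∀ a, Φ a → Ψ a) :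
    cnt Φ ≤ cnt Ψ := by
  classical
  unfold cnt
  apply Finset.card_le_card
  intro a ha
  simp only [Finset.mem_filter, Finset.mem_univ, true_and] at ha ⊢
  exact h a ha

lemma cnt_le_card {α : Type} [Fintype α] (Φ : α → Prop) : cnt Φ ≤ Fintype.card α := by
  classical
  unfold cnt
  exact Finset.card_le_univ _

lemma cnt_true {α : Type} [Fintype α] {Φ : α → Prop} (h : ∀ a, Φ a) :
    cnt Φ = Fintype.card α := by
  classical
  unfold cnt
  rw [Finset.filter_true_of_mem (fun a _ => h a)]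
  simp

lemma one_le_cnt {α : Type} [Fintype α] {Φ : α → Prop} {a : α} (h : Φ a) : 1 ≤ cnt Φ := by
  classical
  unfold cnt
  exact Finset.card_pos.mpr ⟨a, by simpa using h⟩

lemma cnt_le_one {α : Type} [Fintype α] {Φ : α → Prop} (h : ∀ a b, Φ a → Φ b → a = b) :
    cnt Φ ≤ 1 := by
  classical
  unfold cnt
  rw [Finset.card_le_one]
  intro a ha b hb
  simp only [Finset.mem_filter, Finset.mem_univ, true_and] at ha hb
  exact h a b ha hb

lemma cnt_false {α : Type} [Fintype α] {Φ : α → Prop} (h : ∀ a, ¬ Φ a) : cnt Φ = 0 := by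
  classical
  unfold cnt
  rw [Finset.filter_false_of_mem (fun a _ => h a)]
  simp

lemma cnt_eq_natCard {α : Type} [Fintype α] (Φ : α → Prop) : cnt Φ = Nat.card {a // Φ a} := by
  classical
  unfold cnt
  rw [Nat.card_eq_fintype_card, Fintype.card_subtype]

lemma cnt_cover {α ι : Type} [Fintype α] {Φ Φ₀ : α → Prop} (s : Finset ι) (Ψ : ι → α → Prop)
    (h : ∀ a, Φ a → Φ₀ a ∨ ∃ i ∈ s, Ψ i a) : cnt Φ ≤ cnt Φ₀ + ∑ i ∈ s, cnt (Ψ i) := by
  classical
  simp only [cnt_eq_sum]
  rw [Finset.sum_comm, ← Finset.sum_add_distrib]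
  apply Finset.sum_le_sum
  intro a _
  by_cases ha : Φ a
  · rcases h a ha with h0 | ⟨i, hi, hia⟩
    · simp [ha, h0]
    · have : (if Ψ i a then 1 else 0 : ℕ) ≤ ∑ j ∈ s, if Ψ j a then 1 else 0 :=
        Finset.single_le_sum (f := fun j => (if Ψ j a then 1 else 0 : ℕ))
          (fun _ _ => Nat.zero_le _) hi
      rw [if_pos hia] at this
      rw [if_pos ha]
      omega
  · simp [ha]

variable {V X : Type} [Fintype V] [DecidableEq V] [Fintype X]

lemma update_identity (v : V) (Ψ : (V → X) → Prop) :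
    Fintype.card X * cnt Ψ = ∑ φ : V → X, cnt (fun y => Ψ (update φ v y)) := by
  classical
  let T : (V → X) × X → (V → X) × X := fun p => (update p.1 v p.2, p.1 v)
  have hT : Function.Involutive T := by
    rintro ⟨φ, y⟩
    simp [T]
  have h1 : ∑ p : (V → X) × X, (if Ψ p.1 then 1 else 0 : ℕ)
      = ∑ p : (V → X) × X, (if Ψ (T p).1 then 1 else 0 : ℕ) :=
    (Equiv.sum_comp hT.toPerm (fun p => (if Ψ p.1 then 1 else 0 : ℕ))).symm
  rw [Fintype.sum_prod_type, Fintype.sum_prod_type] at h1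
  simp only [cnt_eq_sum]
  rw [Finset.mul_sum]
  refine Eq.trans ?_ h1
  apply Finset.sum_congr rfl
  intro φ _
  by_cases hφ : Ψ φ <;> simp [hφ]

/-- Proportion of the functions `V → X` with a property. -/
noncomputable def dens (Φ : (V → X) → Prop) : ℝ :=
  (cnt Φ : ℝ) / (Fintype.card X : ℝ) ^ Fintype.card V

lemma dens_nonneg (Φ : (V → X) → Prop) : 0 ≤ dens Φ := by
  unfold dens; positivity

lemma dens_mono {Φ Ψ : (V → X) → Prop} (h : ∀ a, Φ a → Ψ a) : dens Φ ≤ dens Ψ := by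
  unfold dens
  gcongr
  exact cnt_mono h

lemma dens_true [Nonempty X] {Φ : (V → X) → Prop} (h : ∀ a, Φ a) : dens Φ = 1 := by
  unfold dens
  rw [cnt_true h, Fintype.card_fun]
  have : (0 : ℝ) < Fintype.card X := by exact_mod_cast Fintype.card_pos
  push_cast
  field_simp

lemma dens_le_one [Nonempty X] (Φ : (V → X) → Prop) : dens Φ ≤ 1 := by
  rw [← dens_true (V := V) (X := X) (Φ := fun _ => True) (fun _ => trivial)]
  exact dens_mono (fun _ _ => trivial)

lemma dens_cover {ι : Type} {Φ Φ₀ : (V → X) → Prop} (s : Finset ι) (Ψ : ι → (V → X) → Prop)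
    (h : ∀ a, Φ a → Φ₀ a ∨ ∃ i ∈ s, Ψ i a) : dens Φ ≤ dens Φ₀ + ∑ i ∈ s, dens (Ψ i) := by
  unfold dens
  rw [← Finset.sum_div, ← add_div]
  gcongr
  exact_mod_cast cnt_cover s Ψ h

lemma dens_low [Nonempty X] (v : V) {Φ Ψ : (V → X) → Prop} {r : ℕ}
    (h : ∀ φ, Φ φ → r ≤ cnt (fun y => Ψ (update φ v y))) :
    (r : ℝ) / Fintype.card X * dens Φ ≤ dens Ψ := by
  classical
  have hX : (0 : ℝ) < Fintype.card X := by exact_mod_cast Fintype.card_pos
  have key : r * cnt Φ ≤ Fintype.card X * cnt Ψ := by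
    rw [update_identity v Ψ, cnt_eq_sum Φ, Finset.mul_sum]
    apply Finset.sum_le_sum
    intro φ _
    by_cases hφ : Φ φ
    · simpa [hφ] using h φ hφ
    · simp [hφ]
  have key' : (r : ℝ) * cnt Φ ≤ Fintype.card X * cnt Ψ := by exact_mod_cast key
  unfold dens
  rw [← mul_div_assoc]
  gcongr
  rw [div_mul_eq_mul_div, div_le_iff₀ hX]
  linarith

lemma dens_up [Nonempty X] (v : V) {Φ Ψ : (V → X) → Prop} {r : ℕ}
    (h0 : ∀ φ y, Ψ (update φ v y) → Φ φ)
    (h : ∀ φ, Φ φ → cnt (fun y => Ψ (update φ v y)) ≤ r) :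
    dens Ψ ≤ (r : ℝ) / Fintype.card X * dens Φ := by
  classical
  have hX : (0 : ℝ) < Fintype.card X := by exact_mod_cast Fintype.card_pos
  have key : Fintype.card X * cnt Ψ ≤ r * cnt Φ := by
    rw [update_identity v Ψ, cnt_eq_sum Φ, Finset.mul_sum]
    apply Finset.sum_le_sum
    intro φ _
    by_cases hφ : Φ φ
    · simpa [hφ] using h φ hφ
    · rw [cnt_false (fun y hy => hφ (h0 φ y hy))]
      simp
  have key' : (Fintype.card X : ℝ) * cnt Ψ ≤ r * cnt Φ := by exact_mod_cast key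
  unfold dens
  rw [← mul_div_assoc]
  gcongr
  rw [div_mul_eq_mul_div, le_div_iff₀ hX]
  linarith

end Pool.Agent.MP_4388f3_co
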