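import Mathlib

namespace Pool.Agent.MP_4388f3_co

/-- A finite bipartite graph with labelled classes `V₁`, `V₂` and edge set `E ⊆ V₁ × V₂`. -/
structure BipGraph where
  V₁ : Type
  V₂ : Type
  finite₁ : Finite V₁
  finite₂ : Finite V₂
  E : V₁ → V₂ → Prop

/-- `hom(H,G)`: the number of homomorphisms `H → G` that map `Vᵢ(H)` into `Vᵢ(G)`. -/
noncomputable def homCount (H G : BipGraph) : ℕ :=
  Nat.card {φ : (H.V₁ → G.V₁) × (H.V₂ → G.V₂) // ∀ a b, H.E a b → G.E (φ.1 a) (φ.2 b)}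

/-- The bipartite density `t_B(H,G)`. -/
noncomputable def homDensity (H G : BipGraph) : ℝ :=
  (homCount H G : ℝ) /
    ((Nat.card G.V₁ : ℝ) ^ Nat.card H.V₁ * (Nat.card G.V₂ : ℝ) ^ Nat.card H.V₂)

/-- `G` is the incidence graph (points `V₁`, lines `V₂`) of a finite projective plane of order
`m`: two distinct points lie on exactly one line, two distinct lines meet in exactly one point,
some four points have no three on a line, and every line has `m + 1` points. -/
def IsPlaneOfOrder (G : BipGraph) (m : ℕ) : Prop :=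
  (∀ p q : G.V₁, p ≠ q → ∃! l : G.V₂, G.E p l ∧ G.E q l) ∧
  (∀ l k : G.V₂, l ≠ k → ∃! p : G.V₁, G.E p l ∧ G.E p k) ∧
  (∃ x : Fin 4 → G.V₁, Function.Injective x ∧ ∀ (l : G.V₂) (i j k : Fin 4),
    i ≠ j → i ≠ k → j ≠ k → ¬ (G.E (x i) l ∧ G.E (x j) l ∧ G.E (x k) l)) ∧
  ∀ l : G.V₂, Nat.card {p : G.V₁ // G.E p l} = m + 1

end Pool.Agent.MP_4388f3_co
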