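import Pool.Agent.Mg.F4388f3.G808de0

/-! Injective homomorphisms of graphs of minimum degree three are negligible. -/

set_option linter.unusedSectionVars false

namespace Pool.Agent.MP_4388f3_co

open Finset Function

variable {V : Type} [Fintype V] [DecidableEq V] {σ : V → Bool} {e : V → V → Prop}

/-- An order of `T` and its reverse together gain `3 |T|` when the last vertex has a neighbour outside. -/
lemma order_strict (he : Bip σ e) {W T : Finset V} (hTW : T ⊆ W) {t : V} (ht : t ∈ T)
    (ht1 : 1 ≤ deg e (W \ T) t) (hdeg : ∀ v ∈ T, 3 ≤ deg e W v)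
    (hmin : ∀ K ⊆ T, K.Nonempty → K ≠ T → ∀ z ∈ W, z ∉ K →
      ∃ u ∈ K, ∃ w ∈ W, e u w ∧ w ∉ K ∧ w ≠ z) :
    ∀ n : ℕ, ∀ B ⊆ T, B.card = n → t ∈ B → Conn e B t →
      ∃ kf kr : ℕ, 3 * B.card ≤ kf + kr ∧ Up σ e (W \ B) W kf ∧
        Up σ e (W \ T) ((W \ T) ∪ B) kr := by
  intro n
  induction n with
  | zero =>
    intro B _ hc htB _
    rw [card_eq_zero] at hc
    simp [hc] at htB
  | succ n ih =>
    intro B hBT hc htB hB
    by_cases hne : (B.erase t).Nonempty
    · obtain ⟨v, hvB, hvt, ⟨w, hwW, hwB, hvw⟩, hB'⟩ := exists_move he hTW ht hmin hBT htB hB hne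
      obtain ⟨kf, kr, hk, hf, hr⟩ := ih (B.erase v) ((erase_subset _ _).trans hBT)
        (by rw [card_erase_of_mem hvB]; omega) (mem_erase.mpr ⟨hvt.symm, htB⟩) hB'
      have hv1 : v ∉ W \ B := by simp [hvB]
      have hv2 : v ∉ (W \ T) ∪ B.erase v := by simp [hBT hvB]
      have s1 := Up.step (σ := σ) (e := e) hv1
      have s2 := Up.step (σ := σ) (e := e) hv2
      have e1 : insert v (W \ B) = W \ B.erase v := by
        ext a
        simp only [mem_insert, mem_sdiff, mem_erase]
        constructor
        · rintro (rfl | ⟨h1, h2⟩)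
          · exact ⟨hTW (hBT hvB), by simp⟩
          · exact ⟨h1, fun h => h2 h.2⟩
        · rintro ⟨h1, h2⟩
          by_cases hav : a = v
          · exact Or.inl hav
          · exact Or.inr ⟨h1, fun h => h2 ⟨hav, h⟩⟩
      have e2 : insert v ((W \ T) ∪ B.erase v) = (W \ T) ∪ B := by
        ext a
        simp only [mem_insert, mem_union, mem_erase]
        constructor
        · rintro (rfl | h | h)
          · exact Or.inr hvB
          · exact Or.inl h
          · exact Or.inr h.2
        · rintro (h | h)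
          · exact Or.inr (Or.inl h)
          · by_cases hav : a = v
            · exact Or.inl hav
            · exact Or.inr (Or.inr ⟨hav, h⟩)
      rw [e1] at s1
      rw [e2] at s2
      have d1 : 1 ≤ deg e (W \ B) v := one_le_deg (mem_sdiff.mpr ⟨hwW, hwB⟩) (he.symm _ _ hvw)
      have d2 : 1 ≤ deg e ((W \ T) ∪ B.erase v) v := by
        obtain ⟨a, ha, b, hb, hbv, hab⟩ := hB {v} (by simpa using hvB) (by simp)
          (by simpa using hvt.symm)
        rw [mem_singleton] at ha hbv
        subst ha
        exact one_le_deg (mem_union_right _ (mem_erase.mpr ⟨hbv, hb⟩)) (he.symm _ _ hab)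
      have d3 : deg e W v ≤ deg e (W \ B) v + deg e ((W \ T) ∪ B.erase v) v := by
        apply deg_cover
        intro u hu huv
        by_cases huB : u ∈ B
        · refine Or.inr (mem_union_right _ (mem_erase.mpr ⟨?_, huB⟩))
          rintro rfl
          exact he.side _ _ huv rfl
        · exact Or.inl (mem_sdiff.mpr ⟨hu, huB⟩)
      have d4 := hdeg v (hBT hvB)
      refine ⟨_, _, ?_, s1.trans hf, hr.trans s2⟩
      rw [card_erase_of_mem hvB] at hk
      omega
    · have hBt : B = {t} := by
        rw [not_nonempty_iff_eq_empty] at hne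
        rw [← insert_erase htB, hne]
        simp
      subst hBt
      have hv1 : t ∉ W \ {t} := by simp
      have hv2 : t ∉ W \ T := by simp [ht]
      have s1 := Up.step (σ := σ) (e := e) hv1
      have s2 := Up.step (σ := σ) (e := e) hv2
      have e1 : insert t (W \ {t}) = W := by
        ext a
        simp only [mem_insert, mem_sdiff, mem_singleton]
        constructor
        · rintro (rfl | h)
          · exact hTW ht
          · exact h.1
        · intro h
          by_cases hat : a = t
          · exact Or.inl hat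
          · exact Or.inr ⟨h, hat⟩
      have e2 : insert t (W \ T) = (W \ T) ∪ {t} := by
        ext a
        simp only [mem_insert, mem_union, mem_singleton]
        tauto
      rw [e1] at s1
      rw [e2] at s2
      have d3 : deg e W t ≤ deg e (W \ {t}) t + deg e ∅ t := by
        apply deg_cover
        intro u hu hut
        refine Or.inl (mem_sdiff.mpr ⟨hu, ?_⟩)
        rw [mem_singleton]
        rintro rfl
        exact he.side _ _ hut rfl
      have d5 : deg e ∅ t = 0 := cnt_false (by simp)
      have d4 := hdeg t ht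
      refine ⟨_, _, ?_, s1, s2⟩
      simp only [card_singleton]
      omega

/-- A part of a graph of minimum degree at least three that can be removed. -/
lemma exists_strict (he : Bip σ e) {W : Finset V} (hW : W.Nonempty)
    (hdeg : ∀ v ∈ W, 3 ≤ deg e W v) :
    ∃ T ⊆ W, T.Nonempty ∧ ∃ j, Up σ e (W \ T) W (j + 1) ∧ Low σ e (W \ T) W j := by
  classical
  let Good : Finset V → Prop := fun T => T ⊆ W ∧ T.Nonempty ∧
    ∃ z ∈ W, z ∉ T ∧ ∀ u ∈ T, ∀ w ∈ W, e u w → w ∈ T ∨ w = z
  have hex : ∃ T, Good T := by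
    obtain ⟨s, hs⟩ := hW
    obtain ⟨u, hu, hus⟩ := exists_of_one_le_deg (e := e) (W := W) (v := s)
      (by have := hdeg s hs; omega)
    refine ⟨W.erase s, erase_subset _ _, ⟨u, mem_erase.mpr ⟨?_, hu⟩⟩, s, hs, by simp, ?_⟩
    · rintro rfl
      exact he.side _ _ hus rfl
    · intro a _ w hw _
      by_cases hws : w = s
      · exact Or.inr hws
      · exact Or.inl (mem_erase.mpr ⟨hws, hw⟩)
  obtain ⟨T, hT, hTmin⟩ := exists_min_image (univ.filter Good) card
    (by obtain ⟨T, hT⟩ := hex; exact ⟨T, by simpa using hT⟩)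
  rw [mem_filter] at hT
  obtain ⟨hTW, hTne, z, hz, hzT, hout⟩ := hT.2
  have hmin : ∀ K ⊆ T, K.Nonempty → K ≠ T → ∀ z ∈ W, z ∉ K →
      ∃ u ∈ K, ∃ w ∈ W, e u w ∧ w ∉ K ∧ w ≠ z := by
    intro K hK hKne hKT z' hz' hz'K
    by_contra hcon
    have hG : Good K := by
      refine ⟨hK.trans hTW, hKne, z', hz', hz'K, ?_⟩
      intro u hu w hw huw
      by_contra h2
      rw [not_or] at h2
      exact hcon ⟨u, hu, w, hw, huw, h2.1, h2.2⟩
    have h1 := hTmin K (by simpa using hG)
    have h2 := card_lt_card (Finset.ssubset_iff_subset_ne.mpr ⟨hK, hKT⟩)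
    omega
  have hzt : ∃ t ∈ T, e z t := by
    by_contra hno
    obtain ⟨u, hu⟩ := hTne
    rcases (T.erase u).eq_empty_or_nonempty with hK | hK
    · obtain ⟨a, ha, b, hb, hab, hau, hbu⟩ := exists_of_two_le_deg (e := e) (W := W) (v := u)
        (by have := hdeg u (hTW hu); omega)
      have hz' : ∀ w ∈ W, e w u → w = z := by
        intro w hw hwu
        refine (hout u hu w hw (he.symm _ _ hwu)).resolve_left fun hwT => ?_
        have : w ∈ T.erase u := mem_erase.mpr ⟨by rintro rfl; exact he.side _ _ hwu rfl, hwT⟩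
        rw [hK] at this
        simp at this
      exact hab ((hz' a ha hau).trans (hz' b hb hbu).symm)
    · obtain ⟨a, ha, w, hw, haw, hwK, hwu⟩ := hmin (T.erase u) (erase_subset _ _) hK
        (fun h => by have := h ▸ hu; simp at this) u (hTW hu) (by simp)
      rcases hout a (mem_of_mem_erase ha) w hw haw with h | h
      · exact hwK (mem_erase.mpr ⟨hwu, h⟩)
      · exact hno ⟨a, mem_of_mem_erase ha, he.symm _ _ (h ▸ haw)⟩
  obtain ⟨t, ht, hzt⟩ := hzt
  have hconn : Conn e T t := by
    intro K hK hKne htK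
    obtain ⟨u, hu, w, hw, huw, hwK, hwz⟩ := hmin K hK hKne (by rintro rfl; exact htK ht) z hz
      (fun h => hzT (hK h))
    exact ⟨u, hu, w, (hout u (hK hu) w hw huw).resolve_right hwz, hwK, huw⟩
  obtain ⟨kf, kr, hk, hf, hr⟩ := order_strict he hTW ht
    (one_le_deg (mem_sdiff.mpr ⟨hz, hzT⟩) hzt) (fun v hv => hdeg v (hTW hv)) hmin
    _ T Subset.rfl rfl ht hconn
  rw [sdiff_union_of_subset hTW] at hr
  have hs : σ t ≠ σ z := (he.side _ _ hzt).symm
  have l1 := low_one he hz hzT hout
  have l2 := low_two he hz hzT hout ht hs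
  have hsum := exponent_sum ht hs
  have hup : Up σ e (W \ T) W (max kf kr) := by
    rcases le_total kf kr with h | h
    · rw [max_eq_right h]; exact hr
    · rw [max_eq_left h]; exact hf
  by_cases h : (∑ u ∈ T, if σ u = σ z then 2 else 1) + 1 ≤ max kf kr
  · exact ⟨T, hTW, ⟨t, ht⟩, _, hup.weaken h, l1⟩
  · exact ⟨T, hTW, ⟨t, ht⟩, _, hup.weaken (by omega), l2⟩

end Pool.Agent.MP_4388f3_co
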