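import Pool.Agent.MP_4388f3_co.KerA

/-! Edge counts, the lower bound for homomorphisms and the upper bound for injective ones. -/

set_option linter.unusedSectionVars false

namespace Pool.Agent.MP_4388f3_co

open Finset Function

variable {V : Type} [Fintype V] [DecidableEq V] {σ : V → Bool} {e : V → V → Prop}

/-- Number of edges inside `W`. -/
noncomputable def edges (σ : V → Bool) (e : V → V → Prop) (W : Finset V) : ℕ :=
  cnt (fun p : V × V => p.1 ∈ W ∧ p.2 ∈ W ∧ e p.1 p.2 ∧ σ p.1 = false)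

lemma cnt_split {α : Type} [Fintype α] (Φ Ψ : α → Prop) :
    cnt Φ = cnt (fun a => Φ a ∧ Ψ a) + cnt (fun a => Φ a ∧ ¬ Ψ a) := by
  classical
  simp only [cnt_eq_sum]
  rw [← Finset.sum_add_distrib]
  refine Finset.sum_congr rfl fun a _ => ?_
  by_cases h1 : Φ a <;> by_cases h2 : Ψ a <;> simp [h1, h2]

lemma cnt_congr {α : Type} [Fintype α] {Φ Ψ : α → Prop} (h : ∀ a, Φ a ↔ Ψ a) : cnt Φ = cnt Ψ :=
  le_antisymm (cnt_mono fun a => (h a).1) (cnt_mono fun a => (h a).2)

lemma cnt_bij {α β : Type} [Fintype α] [Fintype β] {Φ : α → Prop} {Ψ : β → Prop} (f : α → β)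
    (hf : Injective f) (h1 : ∀ a, Φ a → Ψ (f a)) (h2 : ∀ b, Ψ b → ∃ a, Φ a ∧ f a = b) :
    cnt Φ = cnt Ψ := by
  rw [cnt_eq_natCard, cnt_eq_natCard]
  refine Nat.card_eq_of_bijective (fun a => ⟨f a.1, h1 a.1 a.2⟩) ⟨?_, ?_⟩
  · exact fun a b hab => Subtype.ext (hf (congrArg Subtype.val hab))
  · rintro ⟨b, hb⟩
    obtain ⟨a, ha, rfl⟩ := h2 b hb
    exact ⟨⟨a, ha⟩, rfl⟩

lemma edges_empty : edges σ e ∅ = 0 := cnt_false (by simp)

lemma edges_insert (he : Bip σ e) {W : Finset V} {v : V} (hv : v ∉ W) :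
    edges σ e (insert v W) = edges σ e W + deg e W v := by
  unfold edges
  rw [cnt_split _ (fun p : V × V => p.1 ∈ W ∧ p.2 ∈ W)]
  congr 1
  · exact cnt_congr fun p => ⟨fun h => ⟨h.2.1, h.2.2, h.1.2.2⟩, fun h =>
      ⟨⟨mem_insert_of_mem h.1, mem_insert_of_mem h.2.1, h.2.2⟩, h.1, h.2.1⟩⟩
  · symm
    cases hs : σ v
    · refine cnt_bij (fun u => (v, u)) (fun a b h => (Prod.ext_iff.1 h).2) (fun u hu =>
        ⟨⟨mem_insert_self _ _, mem_insert_of_mem hu.1, he.symm _ _ hu.2, hs⟩, fun h => hv h.1⟩) ?_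
      rintro ⟨a, b⟩ ⟨⟨ha, hb, hab, ha'⟩, hn⟩
      have hne := he.side _ _ hab
      rcases mem_insert.1 hb with rfl | hb1
      · exact absurd (ha'.trans hs.symm) hne
      · rcases mem_insert.1 ha with rfl | ha1
        · exact ⟨b, ⟨hb1, he.symm _ _ hab⟩, rfl⟩
        · exact absurd ⟨ha1, hb1⟩ hn
    · refine cnt_bij (fun u => (u, v)) (fun a b h => (Prod.ext_iff.1 h).1) (fun u hu =>
        ⟨⟨mem_insert_of_mem hu.1, mem_insert_self _ _, hu.2, ?_⟩, fun h => hv h.2⟩) ?_
      · have := he.side _ _ hu.2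
        rw [hs] at this
        simpa using this
      rintro ⟨a, b⟩ ⟨⟨ha, hb, hab, ha'⟩, hn⟩
      rcases mem_insert.1 ha with rfl | ha1
      · exact absurd (hs.symm.trans ha') (by simp)
      · rcases mem_insert.1 hb with rfl | hb1
        · exact ⟨a, ⟨ha1, hab⟩, rfl⟩
        · exact absurd ⟨ha1, hb1⟩ hn

lemma deg_erase {W : Finset V} {u v : V} (h : ¬ e u v) : deg e (W.erase u) v = deg e W v :=
  cnt_congr fun w => ⟨fun hw => ⟨mem_of_mem_erase hw.1, hw.2⟩,
    fun hw => ⟨mem_erase.2 ⟨by rintro rfl; exact h hw.2, hw.1⟩, hw.2⟩⟩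

lemma edges_erase (he : Bip σ e) {W : Finset V} {v : V} (hv : v ∈ W) :
    edges σ e W = edges σ e (W.erase v) + deg e (W.erase v) v := by
  rw [← edges_insert he (notMem_erase v W), insert_erase hv]

lemma edges_ge (he : Bip σ e) (s : Bool) (A : Finset V) : ∀ W : Finset V, A ⊆ W →
    (∀ u ∈ A, σ u = s ∧ 3 ≤ deg e W u) → 3 * A.card ≤ edges σ e W := by
  induction A using Finset.induction_on with
  | empty => intro W _ _; simp
  | insert u A hu ih =>
    intro W hW h
    have huW := hW (mem_insert_self u A)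
    have hu' := h u (mem_insert_self u A)
    have h1 := ih (W.erase u) (fun a ha => mem_erase.2 ⟨by rintro rfl; exact hu ha,
      hW (mem_insert_of_mem ha)⟩) fun a ha => by
        have ha' := h a (mem_insert_of_mem ha)
        rw [deg_erase fun hh => he.side _ _ hh (hu'.1.trans ha'.1.symm)]
        exact ha'
    rw [edges_erase he huW, card_insert_of_notMem hu,
      deg_erase fun hh => he.side _ _ hh rfl]
    omega

lemma edges_merge (he : Bip σ e) {W : Finset V} {v w a : V} (hw : w ∈ W) (ha : a ∈ W)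
    (hs : σ w = σ v) (hav : e a v) (haw : ¬ e a w) :
    edges σ e W + 1 ≤ edges σ (merge e w v) W := by
  unfold edges
  rw [cnt_split (fun p : V × V => p.1 ∈ W ∧ p.2 ∈ W ∧ merge e w v p.1 p.2 ∧ σ p.1 = false)
    (fun p : V × V => e p.1 p.2)]
  refine add_le_add (cnt_mono fun p h => ⟨⟨h.1, h.2.1, Or.inl h.2.2.1, h.2.2.2⟩, h.2.2.1⟩) ?_
  cases h : σ a
  · exact one_le_cnt (a := (a, w)) ⟨⟨ha, hw, Or.inr (Or.inr ⟨rfl, hav⟩), h⟩, haw⟩
  · refine one_le_cnt (a := (w, a)) ⟨⟨hw, ha, Or.inr (Or.inl ⟨rfl, he.symm _ _ hav⟩), ?_⟩,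
      fun hh => haw (he.symm _ _ hh)⟩
    have := he.side _ _ hav
    rw [h, ← hs] at this
    simpa using this.symm

lemma hom_empty (G : Geo) : dens (Hom σ e ∅ G) = 1 := dens_true (fun φ => by simp [Hom])

lemma inj_empty (G : Geo) : dens (Inj σ e ∅ G) = 1 := dens_true (fun φ => by simp [Inj, Hom])

lemma inj_le_hom (W : Finset V) (G : Geo) : dens (Inj σ e W G) ≤ dens (Hom σ e W G) :=
  dens_mono fun _ h => h.1

/-- Minimum degree three: collapse the smaller class. -/
lemma low_core (he : Bip σ e) {W : Finset V} (hW : W.Nonempty) (hdeg : ∀ v ∈ W, 3 ≤ deg e W v) :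
    ∃ c : ℝ, 0 < c ∧ ∀ G : Geo, c * G.x ^ edges σ e W ≤ G.x * dens (Hom σ e W G) := by
  classical
  have hz : ∃ z ∈ W, (W.filter fun u => σ u = σ z).card ≤ (W.filter fun u => ¬ σ u = σ z).card := by
    obtain ⟨a, ha⟩ := hW
    obtain ⟨b, hb, hba⟩ := exists_of_one_le_deg (e := e) (W := W) (v := a)
      (by have := hdeg a ha; omega)
    have hs := he.side _ _ hba
    have e1 : (W.filter fun u => σ u = σ b) = W.filter fun u => ¬ σ u = σ a :=
      filter_congr fun u _ => by revert hs; cases σ u <;> cases σ a <;> cases σ b <;> simp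
    have e2 : (W.filter fun u => ¬ σ u = σ b) = W.filter fun u => σ u = σ a :=
      filter_congr fun u _ => by revert hs; cases σ u <;> cases σ a <;> cases σ b <;> simp
    rcases le_total (W.filter fun u => σ u = σ a).card (W.filter fun u => ¬ σ u = σ a).card
      with h | h
    · exact ⟨a, ha, h⟩
    · exact ⟨b, hb, by rw [e1, e2]; exact h⟩
  obtain ⟨z, hz, hle⟩ := hz
  obtain ⟨c, hc, hlow⟩ := low_one he (T := W.erase z) hz (notMem_erase z W) fun u _ w hw _ => by
    by_cases h : w = z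
    · exact Or.inr h
    · exact Or.inl (mem_erase.2 ⟨h, hw⟩)
  have h1 := add_sum_erase W (fun u => if σ u = σ z then 2 else 1) hz
  rw [sum_ite (s := W)] at h1
  simp only [if_true, sum_const, smul_eq_mul] at h1
  have h2 := edges_ge he (!σ z) (W.filter fun u => ¬ σ u = σ z) W (filter_subset _ _)
    fun u hu => ⟨by have := (mem_filter.1 hu).2; revert this; cases σ u <;> cases σ z <;> simp,
      hdeg u (mem_filter.1 hu).1⟩
  refine ⟨c * (1 / 4), by positivity, fun G => ?_⟩
  have h3 := low_step he (W := ∅) (v := z) (by simp)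
    (by rw [show deg e ∅ z = 0 from cnt_false (by simp)]; omega) G
  rw [show deg e ∅ z = 0 from cnt_false (by simp), hom_empty, pow_zero, mul_one, mul_one] at h3
  have e3 : W \ W.erase z = insert z ∅ := by
    rw [sdiff_erase_self hz]; rfl
  have h4 := hlow G
  rw [e3] at h4
  have hx := G.x_pos
  have h5 : G.x ^ edges σ e W ≤ G.x ^ ((∑ u ∈ W.erase z, if σ u = σ z then 2 else 1) + 1) :=
    G.pow_anti (by omega)
  calc _ ≤ c * (1 / 4) * G.x ^ ((∑ u ∈ W.erase z, if σ u = σ z then 2 else 1) + 1) := by gcongr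
    _ = G.x * (c * G.x ^ (∑ u ∈ W.erase z, if σ u = σ z then 2 else 1) * (1 / 4)) := by ring
    _ ≤ G.x * (c * G.x ^ (∑ u ∈ W.erase z, if σ u = σ z then 2 else 1) *
          dens (Hom σ e (insert z ∅) G)) := by gcongr
    _ ≤ _ := by gcongr

lemma peel_cases (W : Finset V) : W = ∅ ∨ (W.Nonempty ∧ ∀ v ∈ W, 3 ≤ deg e W v) ∨
    ∃ v W₀, v ∉ W₀ ∧ W = insert v W₀ ∧ deg e W₀ v ≤ 2 := by
  rcases W.eq_empty_or_nonempty with h | h
  · exact Or.inl h
  by_cases hdeg : ∀ v ∈ W, 3 ≤ deg e W v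
  · exact Or.inr (Or.inl ⟨h, hdeg⟩)
  · push Not at hdeg
    obtain ⟨v, hv, hd⟩ := hdeg
    refine Or.inr (Or.inr ⟨v, W.erase v, notMem_erase v W, (insert_erase hv).symm, ?_⟩)
    have := deg_mono (e := e) (erase_subset v W) v
    omega

/-- The lower bound for homomorphisms. -/
lemma hom_low (he : Bip σ e) (W : Finset V) :
    ∃ c : ℝ, 0 < c ∧ ∀ G : Geo, c * G.x ^ edges σ e W ≤ dens (Hom σ e W G) := by
  induction W using Finset.strongInduction with
  | H W ih =>
    rcases peel_cases (e := e) W with rfl | ⟨hW, hdeg⟩ | ⟨v, W₀, hv, rfl, hd⟩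
    · exact ⟨1, one_pos, fun G => by rw [edges_empty, hom_empty]; simp⟩
    · obtain ⟨c, hc, h⟩ := low_core he hW hdeg
      exact ⟨c, hc, fun G => (h G).trans (mul_le_of_le_one_left (dens_nonneg _) G.x_le_one)⟩
    · obtain ⟨c, hc, h⟩ := ih W₀ (ssubset_insert hv)
      refine ⟨1 / 4 * c, by positivity, fun G => le_trans ?_ (low_step he hv hd G)⟩
      have hx := G.x_pos
      rw [edges_insert he hv]
      calc _ = 1 / 4 * G.x ^ deg e W₀ v * (c * G.x ^ edges σ e W₀) := by ring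
        _ ≤ _ := by gcongr; exact h G

/-- The upper bound for injective homomorphisms. -/
lemma inj_up (he : Bip σ e) (W : Finset V) : ∃ C : ℝ, 0 < C ∧ ∀ G : Geo,
    dens (Inj σ e W G) ≤ C * (G.x * dens (Hom σ e W G) + G.x ^ edges σ e W) := by
  induction W using Finset.strongInduction with
  | H W ih =>
    rcases peel_cases (e := e) W with rfl | ⟨hW, hdeg⟩ | ⟨v, W₀, hv, rfl, hd⟩
    · refine ⟨1, one_pos, fun G => ?_⟩
      rw [edges_empty, hom_empty, inj_empty]
      have := G.x_pos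
      simp only [pow_zero]
      linarith
    · obtain ⟨T, -, -, j, hup, c, hc, hlow⟩ := exists_strict he hW hdeg
      refine ⟨c⁻¹, by positivity, fun G => ?_⟩
      have hx := G.x_pos
      have h1 := inj_le_hom (σ := σ) (e := e) (W \ T) G
      have h2 := dens_nonneg (Hom σ e W G)
      calc _ ≤ _ := hup G
        _ ≤ G.x ^ (j + 1) * dens (Hom σ e (W \ T) G) := by gcongr
        _ = c⁻¹ * (G.x * (c * G.x ^ j * dens (Hom σ e (W \ T) G))) := by
          field_simp
          ring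
        _ ≤ c⁻¹ * (G.x * dens (Hom σ e W G)) := by gcongr; exact hlow G
        _ ≤ _ := by gcongr; exact le_add_of_nonneg_right (by positivity)
    · obtain ⟨C, hC, h⟩ := ih W₀ (ssubset_insert hv)
      refine ⟨4 * C, by positivity, fun G => ?_⟩
      have hx := G.x_pos
      have h1 := low_step he hv hd G
      rw [edges_insert he hv]
      have h2 : 0 ≤ G.x ^ (edges σ e W₀ + deg e W₀ v) := by positivity
      calc _ ≤ _ := up_step hv hd le_rfl G
        _ ≤ G.x ^ deg e W₀ v * (C * (G.x * dens (Hom σ e W₀ G) + G.x ^ edges σ e W₀)) := by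
          gcongr; exact h G
        _ = C * (4 * G.x * (1 / 4 * G.x ^ deg e W₀ v * dens (Hom σ e W₀ G)) +
            G.x ^ (edges σ e W₀ + deg e W₀ v)) := by ring
        _ ≤ C * (4 * G.x * dens (Hom σ e (insert v W₀) G) +
            4 * G.x ^ (edges σ e W₀ + deg e W₀ v)) := by gcongr; linarith
        _ = _ := by ring

end Pool.Agent.MP_4388f3_co
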