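import Pool.Agent.MP_4388f3_co.KerB

/-! The sharp count of injective homomorphisms of rigid graphs. -/

set_option linter.unusedSectionVars false

namespace Pool.Agent.MP_4388f3_co

open Finset Function

variable {V : Type} [Fintype V] [DecidableEq V] {σ : V → Bool} {e : V → V → Prop}

/-- No four-cycle inside `W`. -/
def NoC4 (e : V → V → Prop) (W : Finset V) : Prop :=
  ∀ a ∈ W, ∀ a' ∈ W, ∀ b ∈ W, ∀ b' ∈ W, e a b → e a b' → e a' b → e a' b' → a = a' ∨ b = b'

/-- The candidates for the image of the new vertex `v`. -/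
def Cand (σ : V → Bool) (e : V → V → Prop) (W : Finset V) (v : V) (G : Geo) (φ : V → G.X)
    (y : G.X) : Prop :=
  G.side y = σ v ∧ ∀ u ∈ W, e u v → G.adj (φ u) y

/-- The number of candidates. -/
def Geo.r (G : Geo) (d : ℕ) : ℕ := if d = 0 then G.N else if d = 1 then G.D else 1

lemma Geo.inv_le (G : Geo) : 1 / (G.N : ℝ) ≤ G.x ^ 2 := by
  have h := G.N_pos'
  have h2 : (G.N : ℝ) ≤ (G.D : ℝ) ^ 2 := by exact_mod_cast G.N_le
  unfold Geo.x
  rw [div_pow, div_le_div_iff₀ (by positivity) (by positivity)]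
  nlinarith

lemma Geo.le_inv (G : Geo) (hG : G.D ^ 2 ≤ G.N + G.D) : G.x ^ 2 - G.x ^ 3 ≤ 1 / (G.N : ℝ) := by
  have h := G.N_pos'
  have hD := G.D_pos'
  have h2 : (G.D : ℝ) ^ 2 ≤ G.N + G.D := by exact_mod_cast hG
  have h3 : G.x * (1 / (G.N : ℝ)) ≤ G.x * G.x ^ 2 :=
    mul_le_mul_of_nonneg_left G.inv_le G.x_pos.le
  have h4 : G.x ^ 2 ≤ 1 / (G.N : ℝ) + G.x * (1 / (G.N : ℝ)) := by
    unfold Geo.x
    rw [div_pow, div_le_iff₀ (by positivity)]
    have : (1 / (G.N : ℝ) + G.D / G.N * (1 / G.N)) * G.N ^ 2 = G.N + G.D := by field_simp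
    rw [this]; exact h2
  nlinarith

lemma Geo.r_div (G : Geo) (r : ℝ) : 2 * (r / Fintype.card G.X) = r / G.N := by
  rw [G.card_X']
  have := G.N_pos'
  field_simp

lemma Geo.r_le (G : Geo) {d : ℕ} (hd : d ≤ 2) : (G.r d : ℝ) / G.N ≤ G.x ^ d := by
  interval_cases d
  · simp [Geo.r, G.N_pos'.ne']
  · simp [Geo.r, Geo.x]
  · simpa [Geo.r] using G.inv_le

lemma Geo.r_eq (G : Geo) {d : ℕ} (hd : d ≤ 1) : (G.r d : ℝ) / G.N = G.x ^ d := by
  interval_cases d
  · simp [Geo.r, G.N_pos'.ne']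
  · simp [Geo.r, Geo.x]

lemma cand_cnt (he : Bip σ e) {W : Finset V} {v : V} (hd : deg e W v ≤ 2) {G : Geo}
    {φ : V → G.X} (hφ : Inj σ e W G φ) : cnt (Cand σ e W v G φ) = G.r (deg e W v) := by
  classical
  have hdeg : deg e W v = (W.filter (fun u => e u v)).card := by
    unfold deg cnt
    congr 1
    ext u
    simp
  have hside : ∀ u ∈ W, e u v → ∀ y, G.adj (φ u) y → G.side y = σ v := fun u hu huv y hy =>
    G.side_of_adj hy (by rw [hφ.1.1 u hu]; exact he.side _ _ huv)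
  generalize deg e W v = j at hd hdeg
  interval_cases j
  · rw [show G.r 0 = G.N from rfl, ← G.card_side (σ v)]
    refine cnt_congr fun y => ⟨fun h => h.1, fun h => ⟨h, fun u hu huv => ?_⟩⟩
    have : u ∈ W.filter (fun u => e u v) := mem_filter.mpr ⟨hu, huv⟩
    rw [card_eq_zero.mp hdeg.symm] at this
    simp at this
  · obtain ⟨u, hu⟩ := card_eq_one.mp hdeg.symm
    have huW := mem_filter.mp (hu ▸ mem_singleton_self u : u ∈ W.filter (fun u => e u v))
    rw [show G.r 1 = G.D from rfl, ← G.card_adj (φ u)]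
    refine cnt_congr fun y => ⟨fun h => h.2 u huW.1 huW.2,
      fun h => ⟨hside u huW.1 huW.2 y h, fun w hw hwv => ?_⟩⟩
    have : w ∈ W.filter (fun u => e u v) := mem_filter.mpr ⟨hw, hwv⟩
    rw [hu, mem_singleton] at this
    rwa [this]
  · obtain ⟨u, w, huw, hu⟩ := card_eq_two.mp hdeg.symm
    have huW := mem_filter.mp (by rw [hu]; simp : u ∈ W.filter (fun u => e u v))
    have hwW := mem_filter.mp (by rw [hu]; simp : w ∈ W.filter (fun u => e u v))
    refine le_antisymm (cnt_le_one fun y y' h h' => G.uniq (φ u) (φ w) y y'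
      (fun hh => huw (hφ.2 u huW.1 w hwW.1 hh)) (h.2 u huW.1 huW.2) (h.2 w hwW.1 hwW.2)
      (h'.2 u huW.1 huW.2) (h'.2 w hwW.1 hwW.2)) ?_
    obtain ⟨y, hy1, hy2⟩ := G.ex (φ u) (φ w) (by
      rw [hφ.1.1 u huW.1, hφ.1.1 w hwW.1]
      exact bool_ne (he.side _ _ huW.2).symm (he.side _ _ hwW.2).symm)
    refine one_le_cnt (a := y) ⟨hside u huW.1 huW.2 y hy1, fun z hz hzv => ?_⟩
    have : z ∈ W.filter (fun u => e u v) := mem_filter.mpr ⟨hz, hzv⟩
    rw [hu, mem_insert, mem_singleton] at this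
    rcases this with rfl | rfl
    · exact hy1
    · exact hy2

lemma inj_insert (he : Bip σ e) {W : Finset V} {v : V} (hv : v ∉ W) {G : Geo} {φ : V → G.X}
    (hφ : Inj σ e W G φ) {y : G.X} (hy : Cand σ e W v G φ y) (hn : ∀ w ∈ W, φ w ≠ y) :
    Inj σ e (insert v W) G (update φ v y) := by
  refine ⟨hom_insert he hv hφ.1 hy.1 hy.2, fun a ha b hb hab => ?_⟩
  have hup := update_of_notMem hv φ y
  rcases mem_insert.mp ha with rfl | ha' <;> rcases mem_insert.mp hb with rfl | hb'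
  · rfl
  · rw [hup b hb', update_self] at hab; exact absurd hab.symm (hn b hb')
  · rw [hup a ha', update_self] at hab; exact absurd hab (hn a ha')
  · rw [hup a ha', hup b hb'] at hab; exact hφ.2 a ha' b hb' hab

lemma step_up (he : Bip σ e) {W : Finset V} {v : V} (hv : v ∉ W) (hd : deg e W v ≤ 2) (G : Geo) :
    2 * dens (Inj σ e (insert v W) G) ≤ G.x ^ deg e W v * dens (Inj σ e W G) := by
  have h1 := dens_up v (r := G.r (deg e W v)) (Φ := Inj σ e W G) (Ψ := Inj σ e (insert v W) G)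
    (fun φ y h => (h.mono (subset_insert v W)).congr (update_of_notMem hv φ y)) fun φ hφ => by
      rw [← cand_cnt he hd hφ]
      refine cnt_mono fun y h => ⟨by simpa using h.1.1 v (mem_insert_self v W), fun u hu huv => ?_⟩
      have := h.1.2 u (mem_insert_of_mem hu) v (mem_insert_self v W) huv
      rwa [update_of_notMem hv φ y u hu, update_self] at this
  calc _ ≤ 2 * ((G.r (deg e W v) : ℝ) / Fintype.card G.X * dens (Inj σ e W G)) := by gcongr
    _ = (G.r (deg e W v) : ℝ) / G.N * dens (Inj σ e W G) := by rw [← mul_assoc, G.r_div]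
    _ ≤ _ := mul_le_mul_of_nonneg_right (G.r_le hd) (dens_nonneg _)

lemma step_low1 (he : Bip σ e) {W : Finset V} {v : V} (hv : v ∉ W) (hd : deg e W v ≤ 1)
    (G : Geo) : (G.x ^ deg e W v - W.card * G.x ^ (deg e W v + 1)) * dens (Inj σ e W G) ≤
      2 * dens (Inj σ e (insert v W) G) := by
  have h1 := dens_low v (r := G.r (deg e W v) - W.card) (Φ := Inj σ e W G)
    (Ψ := Inj σ e (insert v W) G) fun φ hφ => by
      have h2 := cnt_cover (Φ := Cand σ e W v G φ)
        (Φ₀ := fun y => Inj σ e (insert v W) G (update φ v y)) W (fun w y => φ w = y)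
        fun y hy => by
          by_cases h : ∃ w ∈ W, φ w = y
          · exact Or.inr h
          · exact Or.inl (inj_insert he hv hφ hy fun w hw hh => h ⟨w, hw, hh⟩)
      have h3 : ∑ w ∈ W, cnt (fun y => φ w = y) ≤ W.card • 1 :=
        sum_le_card_nsmul _ _ _ fun w _ => cnt_le_one fun y y' h h' => h.symm.trans h'
      rw [cand_cnt he (hd.trans one_le_two) hφ] at h2
      simp only [smul_eq_mul, mul_one] at h3
      omega
  have h4 : (G.r (deg e W v) : ℝ) - W.card ≤ ((G.r (deg e W v) - W.card : ℕ) : ℝ) := by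
    rw [sub_le_iff_le_add]
    exact_mod_cast le_tsub_add
  have h5 : 1 / (G.N : ℝ) ≤ G.x ^ (deg e W v + 1) := G.inv_le.trans (G.pow_anti (by omega))
  have hN := G.N_pos'
  calc _ ≤ ((G.r (deg e W v) - W.card : ℕ) : ℝ) / G.N * dens (Inj σ e W G) := by
        refine mul_le_mul_of_nonneg_right ?_ (dens_nonneg _)
        calc _ ≤ (G.r (deg e W v) : ℝ) / G.N - W.card * (1 / (G.N : ℝ)) := by
              rw [G.r_eq hd]; gcongr
          _ = ((G.r (deg e W v) : ℝ) - W.card) / G.N := by ring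
          _ ≤ _ := by gcongr
    _ = 2 * (((G.r (deg e W v) - W.card : ℕ) : ℝ) / Fintype.card G.X * dens (Inj σ e W G)) := by
        rw [← mul_assoc, G.r_div]
    _ ≤ _ := by gcongr

lemma step_low2 (he : Bip σ e) {W : Finset V} {v : V} (hv : v ∉ W) (hd : deg e W v = 2)
    (G : Geo) (hG : G.D ^ 2 ≤ G.N + G.D) : (G.x ^ 2 - G.x ^ 3) * dens (Inj σ e W G) ≤
      2 * dens (Inj σ e (insert v W) G) +
        G.x ^ 2 * ∑ w ∈ W.filter (fun w => σ w = σ v), dens (Inj σ (merge e w v) W G) := by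
  set S := W.filter (fun w => σ w = σ v) with hS
  have h1 := dens_low v (r := 1)
    (Φ := fun φ => Inj σ e W G φ ∧ ∀ w ∈ S, ¬ Inj σ (merge e w v) W G φ)
    (Ψ := Inj σ e (insert v W) G) fun φ hφ => by
      have h2 := cand_cnt he hd.le hφ.1
      rw [hd] at h2
      rw [show 1 = G.r 2 from rfl, ← h2]
      refine cnt_mono fun y hy => inj_insert he hv hφ.1 hy fun w hw hh => ?_
      subst hh
      refine hφ.2 w (mem_filter.2 ⟨hw, (hφ.1.1.1 w hw).symm.trans hy.1⟩)
        ⟨⟨hφ.1.1.1, ?_⟩, hφ.1.2⟩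
      rintro a ha b hb (hab | ⟨rfl, hab⟩ | ⟨rfl, hab⟩)
      · exact hφ.1.1.2 a ha b hb hab
      · exact G.symm _ _ (hy.2 b hb (he.symm _ _ hab))
      · exact hy.2 a ha hab
  have h2 := dens_cover (Φ := Inj σ e W G)
    (Φ₀ := fun φ => Inj σ e W G φ ∧ ∀ w ∈ S, ¬ Inj σ (merge e w v) W G φ) S
    (fun w => Inj σ (merge e w v) W G) fun φ hφ => by
      by_cases h : ∃ w ∈ S, Inj σ (merge e w v) W G φ
      · exact Or.inr h
      · exact Or.inl ⟨hφ, fun w hw hh => h ⟨w, hw, hh⟩⟩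
  have h3 : 0 ≤ ∑ w ∈ S, dens (Inj σ (merge e w v) W G) := sum_nonneg fun _ _ => dens_nonneg _
  have h4 := mul_le_mul_of_nonneg_left h1 zero_le_two
  rw [← mul_assoc, G.r_div, Nat.cast_one] at h4
  have h5 := mul_le_mul_of_nonneg_right (G.le_inv hG) (dens_nonneg (Inj σ e W G))
  have h6 := mul_le_mul_of_nonneg_right G.inv_le h3
  have h7 := mul_le_mul_of_nonneg_left h2 (one_div_pos.2 G.N_pos').le
  rw [mul_add] at h7
  linarith

lemma merge_low (he : Bip σ e) {W : Finset V} {v w : V} (hv : v ∉ W) (hw : w ∈ W)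
    (hs : σ w = σ v) (G : Geo) :
    1 / 4 * G.x ^ 2 * dens (Hom σ (merge e w v) W G) ≤ dens (Hom σ e (insert v W) G) := by
  have hne : w ≠ v := by rintro rfl; exact hv hw
  have := dens_low v (r := 1) (Φ := Hom σ (merge e w v) W G) (Ψ := Hom σ e (insert v W) G)
    fun φ h => one_le_cnt (a := φ w) ((merge_iff he (mem_insert_of_mem hw)
      (mem_insert_self v W) hne hs _).2 ⟨by
        rw [erase_insert hv]
        exact h.congr fun a ha => (update_of_notMem hv φ _ a ha).symm,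
        by simp [update_of_ne hne]⟩).1
  exact le_trans (mul_le_mul_of_nonneg_right G.r2_low (dens_nonneg _)) this

lemma merge_small (he : Bip σ e) {W : Finset V} {v : V} (hv : v ∉ W) (hd : deg e W v = 2)
    (h4 : NoC4 e (insert v W)) {C₀ : ℝ} (hC₀ : 0 ≤ C₀) : ∃ C : ℝ, 0 ≤ C ∧ ∀ G : Geo,
      dens (Hom σ e (insert v W) G) ≤ C₀ * G.x ^ (edges σ e W + 2) →
      ∑ w ∈ W.filter (fun w => σ w = σ v), dens (Inj σ (merge e w v) W G) ≤
        C * G.x ^ (edges σ e W + 1) := by
  have key : ∀ w, ∃ C : ℝ, 0 ≤ C ∧ (w ∈ W.filter (fun w => σ w = σ v) → ∀ G : Geo,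
      dens (Hom σ e (insert v W) G) ≤ C₀ * G.x ^ (edges σ e W + 2) →
      dens (Inj σ (merge e w v) W G) ≤ C * G.x ^ (edges σ e W + 1)) := by
    intro w
    by_cases hw : w ∈ W.filter (fun w => σ w = σ v)
    swap
    · exact ⟨0, le_rfl, fun h => absurd h hw⟩
    obtain ⟨hwW, hs⟩ := mem_filter.1 hw
    obtain ⟨C, hC, h⟩ := inj_up (merge_bip he hs) W
    obtain ⟨a, ha, b, hb, hab, hav, hbv⟩ := exists_of_two_le_deg hd.ge
    have hE : edges σ e W + 1 ≤ edges σ (merge e w v) W := by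
      by_cases haw : e a w
      · refine edges_merge he hwW hb hs hbv fun hbw => ?_
        rcases h4 a (mem_insert_of_mem ha) b (mem_insert_of_mem hb) v (mem_insert_self _ _) w
          (mem_insert_of_mem hwW) hav haw hbv hbw with h' | h'
        · exact hab h'
        · exact hv (h' ▸ hwW)
      · exact edges_merge he hwW ha hs hav haw
    refine ⟨C * (4 * C₀ + 1), by positivity, fun _ G hG => (h G).trans ?_⟩
    have hx := G.x_pos
    have h1 : G.x * dens (Hom σ (merge e w v) W G) ≤ 4 * C₀ * G.x ^ (edges σ e W + 1) := by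
      refine le_of_mul_le_mul_left ?_ hx
      have := (merge_low he hv hwW hs G).trans hG
      calc _ = 4 * (1 / 4 * G.x ^ 2 * dens (Hom σ (merge e w v) W G)) := by ring
        _ ≤ 4 * (C₀ * G.x ^ (edges σ e W + 2)) := by gcongr
        _ = _ := by ring
    have h2 := G.pow_anti hE
    rw [mul_assoc]
    gcongr
    linarith
  choose C hC h using key
  refine ⟨∑ w ∈ W.filter (fun w => σ w = σ v), C w, sum_nonneg fun w _ => hC w, fun G hG => ?_⟩
  rw [sum_mul]
  exact sum_le_sum fun w hw => h w hw G hG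

/-- The sharp count. -/
lemma inj_sharp (he : Bip σ e) (W : Finset V) : NoC4 e W → ∀ C₀ : ℝ, 0 ≤ C₀ →
    ∃ C : ℝ, 0 ≤ C ∧ ∀ G : Geo, G.D ^ 2 ≤ G.N + G.D →
      dens (Hom σ e W G) ≤ C₀ * G.x ^ edges σ e W →
      |2 ^ W.card * dens (Inj σ e W G) - G.x ^ edges σ e W| ≤ C * G.x ^ (edges σ e W + 1) := by
  induction W using Finset.strongInduction with
  | H W ih =>
    intro h4 C₀ hC₀
    rcases peel_cases (e := e) W with rfl | ⟨hW, hdeg⟩ | ⟨v, W₀, hv, rfl, hd⟩
    · exact ⟨0, le_rfl, fun G _ _ => by rw [edges_empty, inj_empty]; simp⟩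
    · obtain ⟨c, hc, h⟩ := low_core he hW hdeg
      refine ⟨(2 ^ W.card * C₀ + 1) * (C₀ / c), by positivity, fun G _ hG => ?_⟩
      have hx := G.x_pos
      have h1 : G.x ^ edges σ e W ≤ C₀ / c * G.x ^ (edges σ e W + 1) := by
        rw [div_mul_eq_mul_div, le_div_iff₀ hc]
        calc _ = c * G.x ^ edges σ e W := mul_comm _ _
          _ ≤ G.x * (C₀ * G.x ^ edges σ e W) := (h G).trans (by gcongr)
          _ = _ := by ring
      have h2 : 2 ^ W.card * dens (Inj σ e W G) ≤ 2 ^ W.card * (C₀ * G.x ^ edges σ e W) := by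
        gcongr; exact (inj_le_hom W G).trans hG
      have h3 : 0 ≤ 2 ^ W.card * dens (Inj σ e W G) := by
        have := dens_nonneg (Inj σ e W G); positivity
      have h5 : 0 ≤ G.x ^ edges σ e W := by positivity
      calc _ ≤ (2 ^ W.card * C₀ + 1) * G.x ^ edges σ e W := by
            rw [abs_le]; constructor <;> nlinarith
        _ ≤ (2 ^ W.card * C₀ + 1) * (C₀ / c * G.x ^ (edges σ e W + 1)) := by gcongr
        _ = _ := by ring
    · obtain ⟨C₁, hC₁, h1⟩ := ih W₀ (ssubset_insert hv) (fun a ha a' ha' b hb b' hb' =>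
        h4 a (mem_insert_of_mem ha) a' (mem_insert_of_mem ha') b (mem_insert_of_mem hb) b'
          (mem_insert_of_mem hb')) (4 * C₀) (by positivity)
      have hlow : ∃ C₂ : ℝ, 0 ≤ C₂ ∧ ∀ G : Geo, G.D ^ 2 ≤ G.N + G.D →
          dens (Hom σ e (insert v W₀) G) ≤ C₀ * G.x ^ (edges σ e W₀ + deg e W₀ v) →
          (G.x ^ deg e W₀ v - (W₀.card + 1) * G.x ^ (deg e W₀ v + 1)) * dens (Inj σ e W₀ G) ≤
            2 * dens (Inj σ e (insert v W₀) G) + C₂ * G.x ^ (edges σ e W₀ + deg e W₀ v + 1) := by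
        rcases hd.eq_or_lt with hd2 | hd1
        · obtain ⟨C₂, hC₂, h⟩ := merge_small he hv hd2 h4 hC₀
          refine ⟨C₂, hC₂, fun G hG hH => ?_⟩
          rw [hd2] at hH ⊢
          have hx := G.x_pos
          have a1 := step_low2 he hv hd2 G hG
          have a2 := mul_le_mul_of_nonneg_left (h G hH) (sq_nonneg G.x)
          have a3 : 0 ≤ W₀.card * G.x ^ 3 * dens (Inj σ e W₀ G) := by
            have := dens_nonneg (Inj σ e W₀ G); positivity
          have a4 : G.x ^ 2 * (C₂ * G.x ^ (edges σ e W₀ + 1)) =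
            C₂ * G.x ^ (edges σ e W₀ + 2 + 1) := by ring
          have a5 : (G.x ^ 2 - (W₀.card + 1) * G.x ^ (2 + 1)) * dens (Inj σ e W₀ G) =
            (G.x ^ 2 - G.x ^ 3) * dens (Inj σ e W₀ G) -
              W₀.card * G.x ^ 3 * dens (Inj σ e W₀ G) := by ring
          rw [a5, ← a4]
          linarith
        · refine ⟨0, le_rfl, fun G _ _ => ?_⟩
          have hx := G.x_pos
          have a1 := step_low1 he hv (Nat.lt_succ_iff.1 hd1) G
          have a3 : 0 ≤ G.x ^ (deg e W₀ v + 1) * dens (Inj σ e W₀ G) := by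
            have := dens_nonneg (Inj σ e W₀ G); positivity
          nlinarith
      obtain ⟨C₂, hC₂, h2⟩ := hlow
      refine ⟨C₁ + (W₀.card + 1) * (1 + C₁) + 2 ^ W₀.card * C₂, by positivity, fun G hG hH => ?_⟩
      rw [edges_insert he hv] at hH ⊢
      have hx := G.x_pos
      have hx1 := G.x_le_one
      have b1 : dens (Hom σ e W₀ G) ≤ 4 * C₀ * G.x ^ edges σ e W₀ := by
        refine le_of_mul_le_mul_left ?_ (pow_pos hx (deg e W₀ v))
        calc _ = 4 * (1 / 4 * G.x ^ deg e W₀ v * dens (Hom σ e W₀ G)) := by ring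
          _ ≤ 4 * (C₀ * G.x ^ (edges σ e W₀ + deg e W₀ v)) :=
            mul_le_mul_of_nonneg_left ((low_step he hv hd G).trans hH) (by norm_num)
          _ = _ := by ring
      obtain ⟨b2, b3⟩ := abs_le.1 (h1 G hG b1)
      have b4 := mul_le_mul_of_nonneg_left (step_up he hv hd G)
        (pow_nonneg zero_le_two W₀.card : (0 : ℝ) ≤ 2 ^ W₀.card)
      have b5 := mul_le_mul_of_nonneg_left (h2 G hG hH)
        (pow_nonneg zero_le_two W₀.card : (0 : ℝ) ≤ 2 ^ W₀.card)
      rw [card_insert_of_notMem hv, pow_succ (2 : ℝ), pow_succ G.x, pow_add G.x]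
      rw [pow_succ G.x, pow_succ G.x, pow_add G.x] at b5
      rw [pow_succ G.x] at b2 b3
      have hP : 0 < G.x ^ edges σ e W₀ := by positivity
      have hQ : 0 < G.x ^ deg e W₀ v := by positivity
      generalize G.x ^ edges σ e W₀ = P at *
      generalize G.x ^ deg e W₀ v = Q at *
      generalize dens (Inj σ e (insert v W₀) G) = I' at *
      have b6 : 2 ^ W₀.card * dens (Inj σ e W₀ G) ≤ (1 + C₁) * P := by
        have : C₁ * (P * G.x) ≤ C₁ * (P * 1) := by gcongr
        linarith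
      have b7 := mul_le_mul_of_nonneg_left b2 hQ.le
      have b8 := mul_le_mul_of_nonneg_left b3 hQ.le
      have b9 := mul_le_mul_of_nonneg_left b6
        (by positivity : 0 ≤ ((W₀.card : ℝ) + 1) * (Q * G.x))
      have c1 : 0 ≤ ((W₀.card : ℝ) + 1) * (1 + C₁) * (P * Q * G.x) := by positivity
      have c2 : 0 ≤ (2 : ℝ) ^ W₀.card * C₂ * (P * Q * G.x) := by positivity
      rw [abs_le]
      constructor <;> nlinarith

end Pool.Agent.MP_4388f3_co
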