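import Pool.Agent.MP_4388f3_co.Defs

namespace Pool.Agent.MP_4388f3_co

/-- The quotient `H / s` of `H` by a pair `s` of equivalence relations on its two classes: two
blocks are adjacent when some of their members are adjacent. -/
def quotGraph (H : BipGraph) (s : Setoid H.V₁ × Setoid H.V₂) : BipGraph where
  V₁ := Quotient s.1
  V₂ := Quotient s.2
  finite₁ := @Quotient.finite _ H.finite₁ s.1
  finite₂ := @Quotient.finite _ H.finite₂ s.2
  E A B := ∃ a b, H.E a b ∧ Quotient.mk s.1 a = A ∧ Quotient.mk s.2 b = B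

/-- Twice the number of vertices minus the number of edges. -/
noncomputable def expDim (K : BipGraph) : ℤ :=
  2 * ((Nat.card K.V₁ : ℤ) + (Nat.card K.V₂ : ℤ)) -
    (Nat.card {p : K.V₁ × K.V₂ // K.E p.1 p.2} : ℤ)

/-- `K` contains no cycle of length four. -/
def C4Free (K : BipGraph) : Prop :=
  ∀ a a' b b', K.E a b → K.E a b' → K.E a' b → K.E a' b' → a = a' ∨ b = b'

/-- The pairs `s` such that `H / s` has no four-cycle and has the largest value of `2 v - e` among
all quotients of `H`. -/
def typical (H : BipGraph) : Set (Setoid H.V₁ × Setoid H.V₂) :=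
  {s | C4Free (quotGraph H s) ∧ ∀ t, expDim (quotGraph H t) ≤ expDim (quotGraph H s)}

/-- The number of homomorphisms `H → G` that identify exactly the vertices related by `s`. -/
noncomputable def kerCount (H G : BipGraph) (s : Setoid H.V₁ × Setoid H.V₂) : ℕ :=
  Nat.card {φ : (H.V₁ → G.V₁) × (H.V₂ → G.V₂) //
    (∀ a b, H.E a b → G.E (φ.1 a) (φ.2 b)) ∧ Setoid.ker φ.1 = s.1 ∧ Setoid.ker φ.2 = s.2}

end Pool.Agent.MP_4388f3_co
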