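import Pool.Agent.MP_4388f3_co.KerC
import Pool.Agent.MP_4388f3_co.KerDefs

/-! Quotients: typical kernels exist; counts with a given kernel; transfer of the counts. -/

set_option linter.style.haveILetI false

namespace Pool.Agent.MP_4388f3_co

open Finset Function

lemma finite_setoid (α : Type) [Finite α] : Finite (Setoid α) :=
  Finite.of_injective (fun s : Setoid α => s.r) fun _ _ h =>
    Setoid.ext fun a b => iff_of_eq (congrFun (congrFun h a) b)

lemma finite_pairs (H : BipGraph) : Finite (Setoid H.V₁ × Setoid H.V₂) := by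
  haveI := H.finite₁
  haveI := H.finite₂
  haveI := finite_setoid H.V₁
  haveI := finite_setoid H.V₂
  infer_instance

/-- Merging two vertices of a four-cycle. -/
lemma exists_merge (H : BipGraph) (s : Setoid H.V₁ × Setoid H.V₂)
    (h : ¬ C4Free (quotGraph H s)) : ∃ s' : Setoid H.V₁,
      expDim (quotGraph H s) ≤ expDim (quotGraph H (s', s.2)) ∧
        Nat.card (Quotient s') < Nat.card (Quotient s.1) := by
  classical
  haveI := H.finite₁
  haveI := H.finite₂
  unfold C4Free at h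
  push Not at h
  obtain ⟨A, A', B, B', h1, h2, h3, h4, hA, hB⟩ :
      ∃ (A A' : Quotient s.1) (B B' : Quotient s.2), (quotGraph H s).E A B ∧
        (quotGraph H s).E A B' ∧ (quotGraph H s).E A' B ∧ (quotGraph H s).E A' B' ∧ A ≠ A' ∧
        B ≠ B' := h
  let f : H.V₁ → Quotient s.1 := fun a =>
    if Quotient.mk s.1 a = A' then A else Quotient.mk s.1 a
  let g : Quotient s.1 → Quotient (Setoid.ker f) := Quotient.map id fun a b hab => by
    change f a = f b
    simp only [f, Quotient.sound hab]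
  have hg : ∀ a, g (Quotient.mk s.1 a) = Quotient.mk _ a := fun _ => rfl
  have hgf : ∀ a b, g (Quotient.mk s.1 a) = g (Quotient.mk s.1 b) ↔ f a = f b := fun a b =>
    ⟨fun h => Quotient.exact h, fun h => Quotient.sound h⟩
  have hAA : g A' = g A := by
    obtain ⟨a, rfl⟩ := Quotient.exists_rep A
    obtain ⟨a', rfl⟩ := Quotient.exists_rep A'
    exact (hgf a' a).2 (by simp only [f, if_true, if_neg hA])
  have hinj : ∀ X Y, X ≠ A' → Y ≠ A' → g X = g Y → X = Y := by
    intro X Y hX hY hXY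
    obtain ⟨a, rfl⟩ := Quotient.exists_rep X
    obtain ⟨b, rfl⟩ := Quotient.exists_rep Y
    simpa only [f, if_neg hX, if_neg hY] using (hgf a b).1 hXY
  have c1 : Nat.card (Quotient (Setoid.ker f)) < Nat.card (Quotient s.1) := by
    letI := Fintype.ofFinite (Quotient (Setoid.ker f))
    letI := Fintype.ofFinite (Quotient s.1)
    rw [Nat.card_eq_fintype_card, Nat.card_eq_fintype_card]
    refine Fintype.card_lt_of_surjective_not_injective g (fun X => ?_) fun hi => hA (hi hAA).symm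
    obtain ⟨a, rfl⟩ := Quotient.exists_rep X
    exact ⟨_, hg a⟩
  have c2 : Nat.card (Quotient s.1) ≤ Nat.card (Quotient (Setoid.ker f)) + 1 := by
    rw [← Finite.card_option]
    refine Nat.card_le_card_of_injective (fun X => if X = A' then none else some (g X))
      fun X Y hXY => ?_
    by_cases hX : X = A' <;> by_cases hY : Y = A'
    · rw [hX, hY]
    · simp [hX, hY] at hXY
    · simp [hX, hY] at hXY
    · simp only [if_neg hX, if_neg hY, Option.some.injEq] at hXY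
      exact hinj X Y hX hY hXY
  let ES : Set (Quotient s.1 × Quotient s.2) := {p | (quotGraph H s).E p.1 p.2}
  let ES' : Set (Quotient (Setoid.ker f) × Quotient s.2) :=
    {p | (quotGraph H (Setoid.ker f, s.2)).E p.1 p.2}
  have c3 : ES'.ncard + 2 ≤ ES.ncard := by
    have a1 : ({(A', B), (A', B')} : Set _) ⊆ ES := by
      rintro p (rfl | rfl)
      · exact h3
      · exact h4
    have a2 := Set.ncard_sdiff_add_ncard_of_subset a1 (Set.toFinite _)
    rw [Set.ncard_pair fun hh => hB (Prod.ext_iff.1 hh).2] at a2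
    have a3 : ES' ⊆ Prod.map g id '' (ES \ {(A', B), (A', B')}) := by
      rintro ⟨X, Y⟩ ⟨a, b, hab, rfl, rfl⟩
      by_cases hp : (Quotient.mk s.1 a, Quotient.mk s.2 b) ∈ ({(A', B), (A', B')} : Set _)
      · have hn : ∀ Y, (A, Y) ∉ ({(A', B), (A', B')} : Set _) := by
          rintro Y (hh | hh) <;> exact hA (Prod.ext_iff.1 hh).1
        rcases hp with hp | hp
        · obtain ⟨e1, e2⟩ := Prod.ext_iff.1 hp
          exact ⟨(A, B), ⟨h1, hn B⟩, Prod.ext (hAA.symm.trans (congrArg g e1.symm)) e2.symm⟩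
        · obtain ⟨e1, e2⟩ := Prod.ext_iff.1 hp
          exact ⟨(A, B'), ⟨h2, hn B'⟩, Prod.ext (hAA.symm.trans (congrArg g e1.symm)) e2.symm⟩
      · exact ⟨_, ⟨⟨a, b, hab, rfl, rfl⟩, hp⟩, rfl⟩
    have a4 := (Set.ncard_le_ncard a3 (Set.toFinite _)).trans (Set.ncard_image_le (Set.toFinite _))
    omega
  refine ⟨Setoid.ker f, ?_, c1⟩
  rw [← Nat.card_coe_set_eq, ← Nat.card_coe_set_eq] at c3
  change 2 * ((Nat.card (Quotient s.1) : ℤ) + (Nat.card (Quotient s.2) : ℤ)) - (Nat.card ES : ℤ) ≤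
    2 * ((Nat.card (Quotient (Setoid.ker f)) : ℤ) + (Nat.card (Quotient s.2) : ℤ)) -
      (Nat.card ES' : ℤ)
  omega

lemma typical_nonempty (H : BipGraph) : (typical H).Nonempty := by
  haveI := finite_pairs H
  obtain ⟨s₀, h₀⟩ := Finite.exists_max fun s => expDim (quotGraph H s)
  obtain ⟨s, hs, hmin⟩ := Set.exists_min_image
    {s | ∀ t, expDim (quotGraph H t) ≤ expDim (quotGraph H s)}
    (fun s => Nat.card (Quotient s.1)) (Set.toFinite _) ⟨s₀, h₀⟩
  refine ⟨s, ?_, hs⟩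
  by_contra h
  obtain ⟨s', h1, h2⟩ := exists_merge H s h
  exact absurd (hmin (s', s.2) fun t => (hs t).trans h1) (not_le.2 h2)

/-- The number of injective homomorphisms. -/
noncomputable def injCount (K G : BipGraph) : ℕ :=
  Nat.card {φ : (K.V₁ → G.V₁) × (K.V₂ → G.V₂) //
    (∀ a b, K.E a b → G.E (φ.1 a) (φ.2 b)) ∧ Injective φ.1 ∧ Injective φ.2}

lemma ker_comp {α β : Type} {s : Setoid α} {f : Quotient s → β} (hf : Injective f) :
    Setoid.ker (f ∘ Quotient.mk s) = s :=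
  Setoid.ext fun _ _ => ⟨fun h => Quotient.exact (hf h), fun h => congrArg f (Quotient.sound h)⟩

lemma comp_mk_inj {α β : Type} {s : Setoid α} {f g : Quotient s → β}
    (h : f ∘ Quotient.mk s = g ∘ Quotient.mk s) : f = g :=
  funext fun X => by
    obtain ⟨a, rfl⟩ := Quotient.exists_rep X
    exact congrFun h a

lemma kerCount_eq (H G : BipGraph) (s : Setoid H.V₁ × Setoid H.V₂) :
    kerCount H G s = injCount (quotGraph H s) G := by
  symm
  refine Nat.card_eq_of_bijective (fun φ => ⟨(φ.1.1 ∘ Quotient.mk s.1, φ.1.2 ∘ Quotient.mk s.2),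
    fun a b hab => φ.2.1 _ _ ⟨a, b, hab, rfl, rfl⟩, ker_comp φ.2.2.1, ker_comp φ.2.2.2⟩) ⟨?_, ?_⟩
  · intro φ ψ h
    obtain ⟨h1, h2⟩ := Prod.ext_iff.1 (congrArg Subtype.val h)
    exact Subtype.ext (Prod.ext (comp_mk_inj h1) (comp_mk_inj h2))
  · rintro ⟨⟨f, g⟩, h1, h2, h3⟩
    refine ⟨⟨(Quotient.lift f h2.ge, Quotient.lift g h3.ge), ?_,
      (Setoid.lift_injective_iff_ker_eq_of_le h2.ge).2 h2,
      (Setoid.lift_injective_iff_ker_eq_of_le h3.ge).2 h3⟩, rfl⟩
    rintro _ _ ⟨a, b, hab, rfl, rfl⟩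
    exact h1 a b hab

lemma hom_quot_le (H G : BipGraph) (s : Setoid H.V₁ × Setoid H.V₂) :
    homCount (quotGraph H s) G ≤ homCount H G := by
  haveI := H.finite₁
  haveI := H.finite₂
  haveI := G.finite₁
  haveI := G.finite₂
  refine Nat.card_le_card_of_injective
    (fun φ => ⟨(φ.1.1 ∘ Quotient.mk s.1, φ.1.2 ∘ Quotient.mk s.2),
      fun a b hab => φ.2 _ _ ⟨a, b, hab, rfl, rfl⟩⟩) fun φ ψ h => ?_
  obtain ⟨h1, h2⟩ := Prod.ext_iff.1 (congrArg Subtype.val h)
  exact Subtype.ext (Prod.ext (comp_mk_inj h1) (comp_mk_inj h2))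

lemma hom_eq_sum (H G : BipGraph) [Fintype (Setoid H.V₁ × Setoid H.V₂)] :
    homCount H G = ∑ s, kerCount H G s := by
  haveI := H.finite₁
  haveI := H.finite₂
  haveI := G.finite₁
  haveI := G.finite₂
  unfold homCount
  rw [← Nat.card_congr (Equiv.sigmaFiberEquiv fun φ : {φ : (H.V₁ → G.V₁) × (H.V₂ → G.V₂) //
    ∀ a b, H.E a b → G.E (φ.1 a) (φ.2 b)} => (Setoid.ker φ.1.1, Setoid.ker φ.1.2)),
    Nat.card_sigma]
  refine Finset.sum_congr rfl fun s _ => ?_
  refine Nat.card_eq_of_bijective (fun φ => ⟨φ.1.1, φ.1.2, Prod.ext_iff.1 φ.2⟩) ⟨?_, ?_⟩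
  · exact fun φ ψ h => Subtype.ext (Subtype.ext (congrArg (fun x => x.1) h))
  · rintro ⟨φ, h1, h2⟩
    exact ⟨⟨⟨φ, h1⟩, Prod.ext_iff.2 h2⟩, rfl⟩

lemma inj_zero {K G : BipGraph} {m : ℕ} (h : IsPlaneOfOrder G m) (hK : ¬ C4Free K) :
    injCount K G = 0 := by
  refine Nat.card_eq_zero.2 (Or.inl ⟨fun ⟨φ, h1, h2, h3⟩ => hK fun a a' b b' e1 e2 e3 e4 => ?_⟩)
  by_cases ha : a = a'
  · exact Or.inl ha
  · exact Or.inr (h3 ((h.1 _ _ (h2.ne ha)).unique ⟨h1 _ _ e1, h1 _ _ e3⟩ ⟨h1 _ _ e2, h1 _ _ e4⟩))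

section bridge

variable (K : BipGraph) [Fintype (K.V₁ ⊕ K.V₂)] [DecidableEq (K.V₁ ⊕ K.V₂)]

lemma cnt_bridge {G : BipGraph} {m : ℕ} (h : IsPlaneOfOrder G m)
    (P : (K.V₁ ⊕ K.V₂ → (geo h).X) → Prop) :
    Nat.card {φ : (K.V₁ → G.V₁) × (K.V₂ → G.V₂) //
      (∀ a b, K.E a b → G.E (φ.1 a) (φ.2 b)) ∧ P (Sum.map φ.1 φ.2)} =
      cnt fun φ => Hom Sum.isRight (sumRel K.E) univ (geo h) φ ∧ P φ := by
  rw [cnt_eq_natCard]
  refine Nat.card_eq_of_bijective (fun φ => ⟨Sum.map φ.1.1 φ.1.2, ⟨?_, ?_⟩, φ.2.2⟩) ⟨?_, ?_⟩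
  · rintro (a | b) _ <;> rfl
  · rintro (a | a) _ (b | b) _ hab
    · exact hab.elim
    · exact φ.2.1 a b hab
    · exact φ.2.1 b a hab
    · exact hab.elim
  · rintro ⟨⟨f, g⟩, hf⟩ ⟨⟨f', g'⟩, hf'⟩ hh
    have hh' : Sum.map f g = Sum.map f' g' := congrArg Subtype.val hh
    have h1 : f = f' := funext fun a => Sum.inl.inj (congrFun hh' (.inl a))
    have h2 : g = g' := funext fun a => Sum.inr.inj (congrFun hh' (.inr a))
    subst h1 h2
    rfl
  · rintro ⟨φ, hφ, hP⟩
    have h1 : ∀ a : K.V₁, ∃ p : G.V₁, φ (.inl a) = .inl p := by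
      intro a
      have := hφ.1 (.inl a) (mem_univ _)
      rcases hh : φ (.inl a) with p | l
      · exact ⟨p, rfl⟩
      · rw [hh] at this
        exact absurd this (by simp [geo])
    have h2 : ∀ a : K.V₂, ∃ p : G.V₂, φ (.inr a) = .inr p := by
      intro a
      have := hφ.1 (.inr a) (mem_univ _)
      rcases hh : φ (.inr a) with p | l
      · rw [hh] at this
        exact absurd this (by simp [geo])
      · exact ⟨l, rfl⟩
    choose f hf using h1
    choose g hg using h2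
    have e : Sum.map f g = φ := by
      funext v
      rcases v with a | b
      · exact (hf a).symm
      · exact (hg b).symm
    refine ⟨⟨(f, g), fun a b hab => ?_, by rw [e]; exact hP⟩, Subtype.ext e⟩
    have := hφ.2 (.inl a) (mem_univ _) (.inr b) (mem_univ _) hab
    rw [hf, hg] at this
    exact this

lemma dens_mul {G : Geo} (Φ : (K.V₁ ⊕ K.V₂ → G.X) → Prop) :
    (cnt Φ : ℝ) = (G.N : ℝ) ^ Fintype.card (K.V₁ ⊕ K.V₂) *
      (2 ^ Fintype.card (K.V₁ ⊕ K.V₂) * dens Φ) := by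
  unfold dens
  rw [G.card_X', mul_pow]
  have := G.N_pos'
  field_simp

lemma hom_bridge {G : BipGraph} {m : ℕ} (h : IsPlaneOfOrder G m) :
    (homCount K G : ℝ) = ((geo h).N : ℝ) ^ Fintype.card (K.V₁ ⊕ K.V₂) *
      (2 ^ Fintype.card (K.V₁ ⊕ K.V₂) * dens (Hom Sum.isRight (sumRel K.E) univ (geo h))) := by
  rw [← dens_mul]
  have := cnt_bridge K h fun _ => True
  simp only [and_true] at this
  exact congrArg _ this

lemma inj_bridge {G : BipGraph} {m : ℕ} (h : IsPlaneOfOrder G m) :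
    (injCount K G : ℝ) = ((geo h).N : ℝ) ^ Fintype.card (K.V₁ ⊕ K.V₂) *
      (2 ^ Fintype.card (K.V₁ ⊕ K.V₂) * dens (Inj Sum.isRight (sumRel K.E) univ (geo h))) := by
  rw [← dens_mul]
  have := cnt_bridge K h fun φ => Injective φ
  refine congrArg _ (Eq.trans ?_ (this.trans (cnt_congr fun φ => and_congr_right fun _ =>
    ⟨fun hi u _ v _ huv => hi huv, fun hi u v huv => hi u (mem_univ _) v (mem_univ _) huv⟩)))
  exact Nat.card_congr (Equiv.subtypeEquivRight fun φ =>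
    and_congr_right fun _ => Sum.map_injective.symm)

omit [DecidableEq (K.V₁ ⊕ K.V₂)] in
lemma dim_bridge : expDim K = 2 * (Fintype.card (K.V₁ ⊕ K.V₂) : ℤ) -
    (edges Sum.isRight (sumRel K.E) univ : ℤ) := by
  haveI := K.finite₁
  haveI := K.finite₂
  have h1 : Nat.card {p : K.V₁ × K.V₂ // K.E p.1 p.2} = edges Sum.isRight (sumRel K.E) univ := by
    letI := Fintype.ofFinite (K.V₁ × K.V₂)
    rw [← cnt_eq_natCard]
    refine cnt_bij (fun p => (.inl p.1, .inr p.2)) (fun p q hpq => ?_)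
      (fun p hp => ⟨mem_univ _, mem_univ _, hp, rfl⟩) ?_
    · obtain ⟨h1, h2⟩ := Prod.ext_iff.1 hpq
      exact Prod.ext (Sum.inl.inj h1) (Sum.inr.inj h2)
    · rintro ⟨a | a, b | b⟩ ⟨-, -, h1, h2⟩
      · exact h1.elim
      · exact ⟨(a, b), h1, rfl⟩
      · simp at h2
      · exact h1.elim
  unfold expDim
  rw [h1, ← Nat.card_eq_fintype_card, Nat.card_sum]
  push_cast
  rfl

omit [DecidableEq (K.V₁ ⊕ K.V₂)] in
lemma noC4_bridge (h : C4Free K) : NoC4 (sumRel K.E) univ := by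
  rintro (a | a) - (a' | a') - (b | b) - (b' | b') - e1 e2 e3 e4 <;>
    first
    | exact e1.elim
    | exact e2.elim
    | exact e3.elim
    | skip
  · exact (h a a' b b' e1 e2 e3 e4).imp (congrArg _) (congrArg _)
  · exact (h b b' a a' e1 e3 e2 e4).symm.imp (congrArg _) (congrArg _)

end bridge

end Pool.Agent.MP_4388f3_co
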