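import Pool.Agent.MP_4388f3_co.KerD

/-! The distribution of the kernel of a uniformly random homomorphism. -/

set_option linter.style.haveILetI false

namespace Pool.Agent.MP_4388f3_co

open Finset Function

lemma one_add_pow_le {t : ℝ} (h0 : 0 ≤ t) (h1 : t ≤ 1) (v : ℕ) : (1 + t) ^ v ≤ 1 + 3 ^ v * t := by
  induction v with
  | zero => simpa using h0
  | succ v ih =>
    have h3 : (1 : ℝ) ≤ 3 ^ v := one_le_pow₀ (by norm_num)
    have h4 : (1 + t) ^ v * (1 + t) ≤ (1 + 3 ^ v * t) * (1 + t) :=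
      mul_le_mul_of_nonneg_right ih (by linarith)
    have h5 : 3 ^ v * t * t ≤ 3 ^ v * t * 1 := mul_le_mul_of_nonneg_left h1 (by positivity)
    have h6 : 1 * t ≤ 3 ^ v * t := mul_le_mul_of_nonneg_right h3 h0
    rw [pow_succ, pow_succ]
    nlinarith

lemma Geo.scale (G : Geo) (hG : G.D ^ 2 ≤ G.N + G.D) (v E : ℕ) :
    G.x ^ (-(2 * (v : ℤ) - E)) ≤ (G.N : ℝ) ^ v * G.x ^ E ∧
      (G.N : ℝ) ^ v * G.x ^ E ≤ (1 + 3 ^ v * G.x) * G.x ^ (-(2 * (v : ℤ) - E)) := by
  have hx := G.x_pos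
  have hN := G.N_pos'
  have hp : 0 < G.x ^ (-(2 * (v : ℤ) - E)) := zpow_pos hx _
  have h1 : (G.N : ℝ) ^ v * G.x ^ E = (G.N * G.x ^ 2) ^ v * G.x ^ (-(2 * (v : ℤ) - E)) := by
    rw [neg_sub, zpow_sub₀ hx.ne', zpow_natCast, zpow_mul, zpow_natCast, mul_pow, zpow_two, sq]
    field_simp
  have h2 : 1 ≤ (G.N : ℝ) * G.x ^ 2 := by
    have := G.inv_le
    rwa [div_le_iff₀' hN] at this
  have h3 : (G.N : ℝ) * G.x ^ 2 ≤ 1 + G.x := by
    have h4 : (G.D : ℝ) ^ 2 ≤ G.N + G.D := by exact_mod_cast hG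
    have h5 : (G.N : ℝ) * G.x ^ 2 = G.D ^ 2 / G.N := by
      unfold Geo.x
      field_simp
    have h6 : 1 + G.x = (G.N + G.D) / G.N := by
      unfold Geo.x
      field_simp
    rw [h5, h6]
    gcongr
  rw [h1]
  refine ⟨le_mul_of_one_le_left hp.le (one_le_pow₀ h2), mul_le_mul_of_nonneg_right ?_ hp.le⟩
  exact (pow_le_pow_left₀ (by positivity) h3 v).trans (one_add_pow_le hx.le G.x_le_one v)

lemma geo_sq {G : BipGraph} {m : ℕ} (h : IsPlaneOfOrder G m) :
    (geo h).D ^ 2 ≤ (geo h).N + (geo h).D := by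
  change (m + 1) ^ 2 ≤ m ^ 2 + m + 1 + (m + 1)
  nlinarith

lemma geo_x_le {G : BipGraph} {m : ℕ} (h : IsPlaneOfOrder G m) : (geo h).x ≤ 1 / m := by
  have h2 : (1 : ℝ) < m := by exact_mod_cast (plane_counts h).2.2.2
  have h3 : (geo h).x = ((m + 1 : ℕ) : ℝ) / ((m ^ 2 + m + 1 : ℕ) : ℝ) := rfl
  rw [h3, div_le_div_iff₀ (by positivity) (by positivity)]
  push_cast
  nlinarith

/-- General upper bound for injective homomorphisms. -/
lemma inj_count_up (K : BipGraph) : ∃ C : ℝ, 0 ≤ C ∧ ∀ (G : BipGraph) (m : ℕ)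
    (h : IsPlaneOfOrder G m), (injCount K G : ℝ) ≤
      C * ((geo h).x * homCount K G + (geo h).x ^ (-expDim K)) := by
  classical
  haveI := K.finite₁
  haveI := K.finite₂
  letI := Fintype.ofFinite (K.V₁ ⊕ K.V₂)
  obtain ⟨C, hC, hh⟩ := inj_up (sumRel_bip K.E) univ
  set v := Fintype.card (K.V₁ ⊕ K.V₂) with hv
  refine ⟨C * (2 ^ v * (1 + 3 ^ v)), by positivity, fun G m h => ?_⟩
  rw [inj_bridge K h, hom_bridge K h, dim_bridge K, ← hv]
  obtain ⟨-, s2⟩ := (geo h).scale (geo_sq h) v (edges Sum.isRight (sumRel K.E) univ)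
  have hx := (geo h).x_pos
  have hN := (geo h).N_pos'
  have hd := dens_nonneg (Hom Sum.isRight (sumRel K.E) univ (geo h))
  have h0 := hh (geo h)
  set μ := (geo h).x ^ (-(2 * (v : ℤ) - (edges Sum.isRight (sumRel K.E) univ : ℕ))) with hμ
  have hp : 0 < μ := zpow_pos hx _
  set d := dens (Hom Sum.isRight (sumRel K.E) univ (geo h))
  set x := (geo h).x
  set y := x ^ edges Sum.isRight (sumRel K.E) univ
  set n := ((geo h).N : ℝ) ^ v
  have hn : 0 < n := by positivity
  have hA : (1 : ℝ) ≤ 2 ^ v * (1 + 3 ^ v) :=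
    one_le_mul_of_one_le_of_one_le (one_le_pow₀ (by norm_num))
      (le_add_of_nonneg_right (by positivity))
  have h1 : n * y ≤ (1 + 3 ^ v) * μ := s2.trans (mul_le_mul_of_nonneg_right
    (add_le_add le_rfl (mul_le_of_le_one_right (by positivity) (geo h).x_le_one)) hp.le)
  calc _ ≤ n * (2 ^ v * (C * (x * d + y))) := by gcongr
    _ = C * (1 * (x * (n * (2 ^ v * d))) + 2 ^ v * (n * y)) := by ring
    _ ≤ C * (2 ^ v * (1 + 3 ^ v) * (x * (n * (2 ^ v * d))) + 2 ^ v * ((1 + 3 ^ v) * μ)) := by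
      gcongr
    _ = _ := by ring

/-- Sharp count of injective homomorphisms. -/
lemma inj_count_sharp (K : BipGraph) (hK : C4Free K) (C₀ : ℝ) (h₀ : 0 ≤ C₀) :
    ∃ C : ℝ, 0 ≤ C ∧ ∀ (G : BipGraph) (m : ℕ) (h : IsPlaneOfOrder G m),
      (homCount K G : ℝ) ≤ C₀ * (geo h).x ^ (-expDim K) →
      |(injCount K G : ℝ) - (geo h).x ^ (-expDim K)| ≤
        C * ((geo h).x * (geo h).x ^ (-expDim K)) := by
  classical
  haveI := K.finite₁
  haveI := K.finite₂
  letI := Fintype.ofFinite (K.V₁ ⊕ K.V₂)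
  obtain ⟨C, hC, hh⟩ := inj_sharp (sumRel_bip K.E) univ (noC4_bridge K hK) C₀ h₀
  set v := Fintype.card (K.V₁ ⊕ K.V₂) with hv
  refine ⟨C * (1 + 3 ^ v) + 3 ^ v, by positivity, fun G m h => ?_⟩
  rw [inj_bridge K h, hom_bridge K h, dim_bridge K, ← hv]
  intro hb
  obtain ⟨s1, s2⟩ := (geo h).scale (geo_sq h) v (edges Sum.isRight (sumRel K.E) univ)
  have hx := (geo h).x_pos
  have hN := (geo h).N_pos'
  have hd := dens_nonneg (Hom Sum.isRight (sumRel K.E) univ (geo h))
  have h0 := hh (geo h) (geo_sq h)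
  rw [card_univ, ← hv, pow_succ] at h0
  set μ := (geo h).x ^ (-(2 * (v : ℤ) - (edges Sum.isRight (sumRel K.E) univ : ℕ))) with hμ
  have hp : 0 < μ := zpow_pos hx _
  set d := dens (Hom Sum.isRight (sumRel K.E) univ (geo h))
  set i := dens (Inj Sum.isRight (sumRel K.E) univ (geo h))
  set x := (geo h).x
  set y := x ^ edges Sum.isRight (sumRel K.E) univ
  set n := ((geo h).N : ℝ) ^ v
  have hn : 0 < n := by positivity
  have h1 : n * y ≤ (1 + 3 ^ v) * μ := s2.trans (mul_le_mul_of_nonneg_right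
    (add_le_add le_rfl (mul_le_of_le_one_right (by positivity) (geo h).x_le_one)) hp.le)
  have h2 : d ≤ C₀ * y := by
    refine le_of_mul_le_mul_left ?_ hn
    calc n * d ≤ n * (2 ^ v * d) :=
          mul_le_mul_of_nonneg_left (le_mul_of_one_le_left hd (one_le_pow₀ (by norm_num))) hn.le
      _ ≤ C₀ * μ := hb
      _ ≤ C₀ * (n * y) := mul_le_mul_of_nonneg_left s1 h₀
      _ = _ := by ring
  have h3 : |n * (2 ^ v * i) - n * y| ≤ C * (1 + 3 ^ v) * (x * μ) := by
    rw [← mul_sub, abs_mul, abs_of_pos hn]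
    calc _ ≤ n * (C * (y * x)) := mul_le_mul_of_nonneg_left (h0 h2) hn.le
      _ = C * x * (n * y) := by ring
      _ ≤ C * x * ((1 + 3 ^ v) * μ) := mul_le_mul_of_nonneg_left h1 (by positivity)
      _ = _ := by ring
  have h4 : |n * y - μ| ≤ 3 ^ v * (x * μ) := by
    rw [abs_of_nonneg (sub_nonneg.2 s1)]
    linarith
  calc _ ≤ |n * (2 ^ v * i) - n * y| + |n * y - μ| := abs_sub_le _ _ _
    _ ≤ _ := by linarith

lemma ratio_bound {a h n M t : ℝ} (hn : 1 ≤ n) (hM : 0 < M) (h1 : t ≤ 1 / 2)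
    (ha : |a - M| ≤ t * M) (hh : |h - n * M| ≤ t * M) : |a / h - 1 / n| ≤ 4 * t := by
  have ht : 0 ≤ t := by
    by_contra ht
    have := mul_neg_of_neg_of_pos (not_le.1 ht) hM
    linarith [abs_nonneg (a - M)]
  obtain ⟨a1, a2⟩ := abs_le.1 ha
  obtain ⟨b1, b2⟩ := abs_le.1 hh
  have h2 : M / 2 ≤ h := by nlinarith
  have h3 : 0 < h := by linarith
  have h4 : a / h - 1 / n = (n * a - h) / (h * n) := by field_simp
  have h5 : t * M ≤ n * (t * M) := le_mul_of_one_le_left (by positivity) hn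
  have h6 : n * (t * (M / 2)) ≤ n * (t * h) := by gcongr
  have h7 : n * (a - M) ≤ n * (t * M) := by gcongr
  have h8 : n * -(t * M) ≤ n * (a - M) := by gcongr
  rw [h4, abs_div, abs_of_pos (by positivity : 0 < h * n), div_le_iff₀ (by positivity), abs_le]
  constructor <;> nlinarith

open Classical in
/-- All kernel counts up to a relative error of order `x`. -/
lemma ker_counts (H : BipGraph) : ∃ (k : ℤ) (B : ℝ), 0 ≤ B ∧ ∀ (G : BipGraph) (m : ℕ)
    (h : IsPlaneOfOrder G m), B * (geo h).x ≤ 1 / 2 →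
      |(homCount H G : ℝ) - (typical H).ncard * (geo h).x ^ (-k)| ≤
        B * (geo h).x * (geo h).x ^ (-k) ∧
      ∀ s, |(kerCount H G s : ℝ) - if s ∈ typical H then (geo h).x ^ (-k) else 0| ≤
        B * (geo h).x * (geo h).x ^ (-k) := by
  haveI := finite_pairs H
  letI := Fintype.ofFinite (Setoid H.V₁ × Setoid H.V₂)
  obtain ⟨s₀, -, h₀⟩ := typical_nonempty H
  set k := expDim (quotGraph H s₀) with hk
  choose C hC hup using fun s => inj_count_up (quotGraph H s)
  set S := ∑ s, C s with hS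
  have hS0 : 0 ≤ S := sum_nonneg fun s _ => hC s
  have hhom : ∀ (G : BipGraph) (m : ℕ) (h : IsPlaneOfOrder G m), S * (geo h).x ≤ 1 / 2 →
      (homCount H G : ℝ) ≤ 2 * S * (geo h).x ^ (-k) := by
    intro G m h hs
    have hx := (geo h).x_pos
    have h1 : (homCount H G : ℝ) ≤ S * ((geo h).x * homCount H G + (geo h).x ^ (-k)) := by
      conv_lhs => rw [hom_eq_sum]
      rw [Nat.cast_sum, hS, sum_mul]
      refine sum_le_sum fun s _ => ?_
      rw [kerCount_eq]
      refine (hup s G m h).trans (mul_le_mul_of_nonneg_left (add_le_add ?_ ?_) (hC s))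
      · exact mul_le_mul_of_nonneg_left (by exact_mod_cast hom_quot_le H G s) hx.le
      · exact zpow_le_zpow_right_of_le_one₀ hx (geo h).x_le_one (neg_le_neg (h₀ s))
    have h2 : S * (geo h).x * homCount H G ≤ 1 / 2 * homCount H G :=
      mul_le_mul_of_nonneg_right hs (Nat.cast_nonneg _)
    nlinarith
  have hone : ∀ s, ∃ B : ℝ, 0 ≤ B ∧ ∀ (G : BipGraph) (m : ℕ) (h : IsPlaneOfOrder G m),
      S * (geo h).x ≤ 1 / 2 →
      |(kerCount H G s : ℝ) - if s ∈ typical H then (geo h).x ^ (-k) else 0| ≤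
        B * ((geo h).x * (geo h).x ^ (-k)) := by
    intro s
    by_cases hs : s ∈ typical H
    · have e : expDim (quotGraph H s) = k := le_antisymm (h₀ s) (hs.2 s₀)
      obtain ⟨B, hB, hh⟩ := inj_count_sharp (quotGraph H s) hs.1 (2 * S) (by positivity)
      refine ⟨B, hB, fun G m h hx => ?_⟩
      rw [if_pos hs, kerCount_eq, ← e]
      refine hh G m h ?_
      rw [e]
      exact le_trans (by exact_mod_cast hom_quot_le H G s) (hhom G m h hx)
    · refine ⟨C s * (2 * S + 1), by have := hC s; positivity, fun G m h hx => ?_⟩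
      have hx0 := (geo h).x_pos
      have hp : 0 < (geo h).x ^ (-k) := zpow_pos hx0 _
      rw [if_neg hs, kerCount_eq, sub_zero, Nat.abs_cast]
      by_cases h4 : C4Free (quotGraph H s)
      · have e : expDim (quotGraph H s) < k :=
          not_le.1 fun hle => hs ⟨h4, fun t => (h₀ t).trans hle⟩
        have e1 : (geo h).x ^ (-expDim (quotGraph H s)) ≤ (geo h).x * (geo h).x ^ (-k) := by
          rw [mul_comm, ← zpow_add_one₀ hx0.ne']
          exact zpow_le_zpow_right_of_le_one₀ hx0 (geo h).x_le_one (by omega)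
        have e2 : (homCount (quotGraph H s) G : ℝ) ≤ 2 * S * (geo h).x ^ (-k) :=
          le_trans (by exact_mod_cast hom_quot_le H G s) (hhom G m h hx)
        have := hC s
        calc _ ≤ _ := hup s G m h
          _ ≤ C s * ((geo h).x * (2 * S * (geo h).x ^ (-k)) + (geo h).x * (geo h).x ^ (-k)) := by
            gcongr
          _ = _ := by ring
      · rw [inj_zero h h4, Nat.cast_zero]
        have := hC s
        positivity
  choose B hB hker using hone
  have hB0 : 0 ≤ ∑ s, B s := sum_nonneg fun s _ => hB s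
  refine ⟨k, S + ∑ s, B s, by positivity, fun G m h hx => ?_⟩
  have hx0 := (geo h).x_pos
  have hp : 0 < (geo h).x * (geo h).x ^ (-k) := mul_pos hx0 (zpow_pos hx0 _)
  have hx' : S * (geo h).x ≤ 1 / 2 :=
    le_trans (mul_le_mul_of_nonneg_right (le_add_of_nonneg_right hB0) hx0.le) hx
  rw [mul_assoc]
  refine ⟨?_, fun s => (hker s G m h hx').trans (mul_le_mul_of_nonneg_right ?_ hp.le)⟩
  · have e : ((typical H).ncard : ℝ) * (geo h).x ^ (-k) =
        ∑ s, if s ∈ typical H then (geo h).x ^ (-k) else 0 := by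
      rw [← sum_filter, sum_const, nsmul_eq_mul, ← Set.ncard_coe_finset]
      congr 3
      ext s
      simp
    rw [e, hom_eq_sum, Nat.cast_sum, ← sum_sub_distrib]
    calc _ ≤ _ := abs_sum_le_sum_abs _ _
      _ ≤ ∑ s, B s * ((geo h).x * (geo h).x ^ (-k)) := sum_le_sum fun s _ => hker s G m h hx'
      _ = (∑ s, B s) * ((geo h).x * (geo h).x ^ (-k)) := (sum_mul _ _ _).symm
      _ ≤ _ := mul_le_mul_of_nonneg_right (le_add_of_nonneg_left hS0) hp.le
  · exact (single_le_sum (fun t _ => hB t) (mem_univ s)).trans (le_add_of_nonneg_left hS0)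

theorem typical_kernel (H : BipGraph) : (typical H).Nonempty ∧ ∃ C : ℝ,
    ∀ (G : BipGraph) (m : ℕ), IsPlaneOfOrder G m → ∀ s,
      (s ∈ typical H →
        |(kerCount H G s : ℝ) / homCount H G - 1 / (typical H).ncard| ≤ C / m) ∧
      (s ∉ typical H → (kerCount H G s : ℝ) / homCount H G ≤ C / m) := by
  classical
  haveI := finite_pairs H
  letI := Fintype.ofFinite (Setoid H.V₁ × Setoid H.V₂)
  obtain ⟨k, B, hB, hh⟩ := ker_counts H
  refine ⟨typical_nonempty H, 4 * B, fun G m h s => ?_⟩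
  have hx0 := (geo h).x_pos
  have hp : 0 < (geo h).x ^ (-k) := zpow_pos hx0 _
  have hn : (1 : ℝ) ≤ (typical H).ncard := by
    exact_mod_cast (Set.ncard_pos (Set.toFinite _)).2 (typical_nonempty H)
  have hfin : 4 * (B * (geo h).x) ≤ 4 * B / m := by
    rw [← mul_assoc, div_eq_mul_one_div]
    exact mul_le_mul_of_nonneg_left (geo_x_le h) (by positivity)
  have h0 : (0 : ℝ) ≤ (kerCount H G s : ℝ) / homCount H G := by positivity
  by_cases hx : B * (geo h).x ≤ 1 / 2
  · obtain ⟨h1, h2⟩ := hh G m h hx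
    have h3 := h2 s
    refine ⟨fun hs => ?_, fun hs => ?_⟩
    · rw [if_pos hs] at h3
      exact (ratio_bound hn hp hx h3 h1).trans hfin
    · rw [if_neg hs, sub_zero, Nat.abs_cast] at h3
      obtain ⟨b1, -⟩ := abs_le.1 h1
      have ht : 0 ≤ B * (geo h).x := by positivity
      have h4 : (geo h).x ^ (-k) / 2 ≤ homCount H G := by nlinarith
      refine le_trans ?_ hfin
      rw [div_le_iff₀ (by linarith)]
      nlinarith
  · have h1 : (kerCount H G s : ℝ) / homCount H G ≤ 1 := by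
      refine div_le_one_of_le₀ ?_ (Nat.cast_nonneg _)
      rw [hom_eq_sum]
      exact_mod_cast single_le_sum (f := fun t => kerCount H G t) (fun _ _ => Nat.zero_le _)
        (mem_univ s)
    have h2 : (1 : ℝ) / (typical H).ncard ≤ 1 := div_le_one_of_le₀ hn (by linarith)
    have h3 : (0 : ℝ) ≤ 1 / (typical H).ncard := by positivity
    have h4 := not_le.1 hx
    refine ⟨fun _ => ?_, fun _ => by linarith⟩
    rw [abs_le]
    constructor <;> linarith

end Pool.Agent.MP_4388f3_co
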