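import Pool.Agent.MP_4388f3_co.Steps

/-! The key lemma: injective homomorphisms are dominated by a pure power that bounds all
homomorphisms from below. -/

set_option linter.unusedSectionVars false

namespace Pool.Agent.MP_4388f3_co

open Finset Function

variable {V : Type} [Fintype V] [DecidableEq V] {σ : V → Bool} {e : V → V → Prop}

/-- Passing from `S` to `S'` costs at least the factor `x ^ k` for injective homomorphisms. -/
def Up (σ : V → Bool) (e : V → V → Prop) (S S' : Finset V) (k : ℕ) : Prop :=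
  ∀ G : Geo, dens (Inj σ e S' G) ≤ G.x ^ k * dens (Inj σ e S G)

lemma Up.trans {S S' S'' : Finset V} {j k : ℕ} (h1 : Up σ e S S' j) (h2 : Up σ e S' S'' k) :
    Up σ e S S'' (j + k) := by
  intro G
  have hx := G.x_pos
  calc dens (Inj σ e S'' G) ≤ G.x ^ k * dens (Inj σ e S' G) := h2 G
    _ ≤ G.x ^ k * (G.x ^ j * dens (Inj σ e S G)) := by gcongr; exact h1 G
    _ = _ := by ring

lemma Up.weaken {S S' : Finset V} {j k : ℕ} (h : Up σ e S S' k) (hjk : j ≤ k) :
    Up σ e S S' j := by
  intro G
  refine (h G).trans ?_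
  exact mul_le_mul_of_nonneg_right (G.pow_anti hjk) (dens_nonneg _)

lemma Up.step {W : Finset V} {v : V} (hv : v ∉ W) : Up σ e W (insert v W) (min 2 (deg e W v)) :=
  fun G => up_step hv (min_le_left _ _) (min_le_right _ _) G

/-- Every nonempty subset of `B` that avoids `t` sends an edge to the rest of `B`. -/
def Conn (e : V → V → Prop) (B : Finset V) (t : V) : Prop :=
  ∀ K ⊆ B, K.Nonempty → t ∉ K → ∃ u ∈ K, ∃ w ∈ B, w ∉ K ∧ e u w

lemma deg_mono {W W' : Finset V} (h : W ⊆ W') (v : V) : deg e W v ≤ deg e W' v :=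
  cnt_mono (fun _ hu => ⟨h hu.1, hu.2⟩)

lemma deg_cover {W A B : Finset V} {v : V} (h : ∀ u ∈ W, e u v → u ∈ A ∨ u ∈ B) :
    deg e W v ≤ deg e A v + deg e B v := by
  have := cnt_cover (Φ := fun u => u ∈ W ∧ e u v) (Φ₀ := fun u => u ∈ A ∧ e u v)
    ({()} : Finset Unit) (fun _ u => u ∈ B ∧ e u v) (fun u hu => by
      rcases h u hu.1 hu.2 with h1 | h1
      · exact Or.inl ⟨h1, hu.2⟩
      · exact Or.inr ⟨(), by simp, h1, hu.2⟩)
  simpa [deg] using this

lemma one_le_deg {W : Finset V} {u v : V} (hu : u ∈ W) (huv : e u v) : 1 ≤ deg e W v :=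
  one_le_cnt (a := u) ⟨hu, huv⟩

/-- The vertex that can be moved from the back part to the front part. -/
lemma exists_move (he : Bip σ e) {W T : Finset V} (hTW : T ⊆ W) {t : V} (ht : t ∈ T)
    (hmin : ∀ K ⊆ T, K.Nonempty → K ≠ T → ∀ z ∈ W, z ∉ K →
      ∃ u ∈ K, ∃ w ∈ W, e u w ∧ w ∉ K ∧ w ≠ z)
    {B : Finset V} (hBT : B ⊆ T) (htB : t ∈ B) (hB : Conn e B t) (hne : (B.erase t).Nonempty) :
    ∃ v ∈ B, v ≠ t ∧ (∃ w ∈ W, w ∉ B ∧ e v w) ∧ Conn e (B.erase v) t := by
  classical
  by_contra hcon
  have hbad : ∀ v ∈ B, v ≠ t → (∃ w ∈ W, w ∉ B ∧ e v w) →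
      ∃ K ⊆ B.erase v, K.Nonempty ∧ t ∉ K ∧ ∀ u ∈ K, ∀ w ∈ B.erase v, w ∉ K → ¬ e u w := by
    intro v hv hvt hw
    by_contra h2
    apply hcon
    refine ⟨v, hv, hvt, hw, ?_⟩
    intro K hK hKne htK
    by_contra h3
    apply h2
    refine ⟨K, hK, hKne, htK, ?_⟩
    intro u hu w hw hwK huw
    exact h3 ⟨u, hu, w, hw, hwK, huw⟩
  have hproper : ∀ K : Finset V, t ∉ K → K ≠ T := by
    rintro K hK rfl
    exact hK ht
  -- strong induction on the size of the bad set
  have main : ∀ n : ℕ, ∀ v ∈ B, ∀ K ⊆ B.erase v, K.card = n → K.Nonempty → t ∉ K →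
      (∀ u ∈ K, ∀ w ∈ B.erase v, w ∉ K → ¬ e u w) → False := by
    intro n
    induction n using Nat.strong_induction_on with
    | _ n ih =>
      intro v hv K hK hcard hKne htK hKe
      have hKB : K ⊆ B := hK.trans (erase_subset _ _)
      have hvK : v ∉ K := fun h => by simpa using hK h
      obtain ⟨v', hv'K, w, hwW, hv'w, hwK, hwv⟩ :=
        hmin K (hKB.trans hBT) hKne (hproper K htK) v (hTW (hBT hv)) hvK
      have hwB : w ∉ B := fun h => hKe v' hv'K w (mem_erase.mpr ⟨hwv, h⟩) hwK hv'w
      have hv't : v' ≠ t := by rintro rfl; exact htK hv'K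
      obtain ⟨K', hK', hK'ne, htK', hK'e⟩ := hbad v' (hKB hv'K) hv't ⟨w, hwW, hwB, hv'w⟩
      have hK'B : K' ⊆ B := hK'.trans (erase_subset _ _)
      have hv'K' : v' ∉ K' := fun h => by simpa using hK' h
      have hvK' : v ∉ K' := by
        intro hvK'
        obtain ⟨a, ha, b, hb, hbJ, hab⟩ := hB (K ∪ K') (union_subset hKB hK'B)
          (hKne.mono subset_union_left) (by simp [htK, htK'])
        rw [mem_union, not_or] at hbJ
        rcases mem_union.mp ha with ha | ha
        · exact hKe a ha b (mem_erase.mpr ⟨by rintro rfl; exact hbJ.2 hvK', hb⟩) hbJ.1 hab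
        · exact hK'e a ha b (mem_erase.mpr ⟨by rintro rfl; exact hbJ.1 hv'K, hb⟩) hbJ.2 hab
      have hsub : K' ⊆ K := by
        by_contra hns
        have hLne : (K' \ K).Nonempty := by
          rw [sdiff_nonempty]; exact hns
        obtain ⟨a, ha, b, hb, hbL, hab⟩ := hB (K' \ K) (sdiff_subset.trans hK'B) hLne
          (by simp [htK'])
        rw [mem_sdiff] at ha
        have hbK : b ∈ K := by
          by_contra hbK
          have hbK' : b ∉ K' := fun h => hbL (mem_sdiff.mpr ⟨h, hbK⟩)
          exact hK'e a ha.1 b (mem_erase.mpr ⟨by rintro rfl; exact hbK hv'K, hb⟩) hbK' hab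
        exact hKe b hbK a (mem_erase.mpr ⟨by rintro rfl; exact hvK' ha.1, hK'B ha.1⟩) ha.2
          (he.symm _ _ hab)
      have hlt : K'.card < n := by
        rw [← hcard]
        exact card_lt_card ⟨hsub, fun h => hv'K' (h hv'K)⟩
      exact ih _ hlt v' (hKB hv'K) K' hK' rfl hK'ne htK' hK'e
  obtain ⟨u, hu, w, hwW, huw, hwK, hwt⟩ := hmin (B.erase t) ((erase_subset _ _).trans hBT) hne
    (hproper _ (by simp)) t (hTW ht) (by simp)
  have hwB : w ∉ B := fun h => hwK (mem_erase.mpr ⟨hwt, h⟩)
  obtain ⟨hut, huB⟩ := mem_erase.mp hu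
  obtain ⟨K, hK, hKne, htK, hKe⟩ := hbad u huB hut ⟨w, hwW, hwB, huw⟩
  exact main _ u huB K hK rfl hKne htK hKe

/-- An order of `T` and its reverse together gain `3 |T| - 1`. -/
lemma order_bound (he : Bip σ e) {W T : Finset V} (hTW : T ⊆ W) {t : V} (ht : t ∈ T)
    (hdeg : ∀ v ∈ T, 3 ≤ deg e W v)
    (hmin : ∀ K ⊆ T, K.Nonempty → K ≠ T → ∀ z ∈ W, z ∉ K →
      ∃ u ∈ K, ∃ w ∈ W, e u w ∧ w ∉ K ∧ w ≠ z) :
    ∀ n : ℕ, ∀ B ⊆ T, B.card = n → t ∈ B → Conn e B t →
      ∃ kf kr : ℕ, 3 * B.card ≤ kf + kr + 1 ∧ Up σ e (W \ B) W kf ∧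
        Up σ e (W \ T) ((W \ T) ∪ B) kr := by
  intro n
  induction n with
  | zero =>
    intro B _ hc htB _
    rw [card_eq_zero] at hc
    simp [hc] at htB
  | succ n ih =>
    intro B hBT hc htB hB
    by_cases hne : (B.erase t).Nonempty
    · obtain ⟨v, hvB, hvt, ⟨w, hwW, hwB, hvw⟩, hB'⟩ := exists_move he hTW ht hmin hBT htB hB hne
      obtain ⟨kf, kr, hk, hf, hr⟩ := ih (B.erase v) ((erase_subset _ _).trans hBT)
        (by rw [card_erase_of_mem hvB]; omega) (mem_erase.mpr ⟨hvt.symm, htB⟩) hB'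
      have hv1 : v ∉ W \ B := by simp [hvB]
      have hv2 : v ∉ (W \ T) ∪ B.erase v := by simp [hBT hvB]
      have s1 := Up.step (σ := σ) (e := e) hv1
      have s2 := Up.step (σ := σ) (e := e) hv2
      have e1 : insert v (W \ B) = W \ B.erase v := by
        ext a
        simp only [mem_insert, mem_sdiff, mem_erase]
        constructor
        · rintro (rfl | ⟨h1, h2⟩)
          · exact ⟨hTW (hBT hvB), by simp⟩
          · exact ⟨h1, fun h => h2 h.2⟩
        · rintro ⟨h1, h2⟩
          by_cases hav : a = v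
          · exact Or.inl hav
          · exact Or.inr ⟨h1, fun h => h2 ⟨hav, h⟩⟩
      have e2 : insert v ((W \ T) ∪ B.erase v) = (W \ T) ∪ B := by
        ext a
        simp only [mem_insert, mem_union, mem_erase]
        constructor
        · rintro (rfl | h | h)
          · exact Or.inr hvB
          · exact Or.inl h
          · exact Or.inr h.2
        · rintro (h | h)
          · exact Or.inr (Or.inl h)
          · by_cases hav : a = v
            · exact Or.inl hav
            · exact Or.inr (Or.inr ⟨hav, h⟩)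
      rw [e1] at s1
      rw [e2] at s2
      have d1 : 1 ≤ deg e (W \ B) v := one_le_deg (mem_sdiff.mpr ⟨hwW, hwB⟩) (he.symm _ _ hvw)
      have d2 : 1 ≤ deg e ((W \ T) ∪ B.erase v) v := by
        obtain ⟨a, ha, b, hb, hbv, hab⟩ := hB {v} (by simpa using hvB) (by simp)
          (by simpa using hvt.symm)
        rw [mem_singleton] at ha hbv
        subst ha
        exact one_le_deg (mem_union_right _ (mem_erase.mpr ⟨hbv, hb⟩)) (he.symm _ _ hab)
      have d3 : deg e W v ≤ deg e (W \ B) v + deg e ((W \ T) ∪ B.erase v) v := by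
        apply deg_cover
        intro u hu huv
        by_cases huB : u ∈ B
        · refine Or.inr (mem_union_right _ (mem_erase.mpr ⟨?_, huB⟩))
          rintro rfl
          exact he.side _ _ huv rfl
        · exact Or.inl (mem_sdiff.mpr ⟨hu, huB⟩)
      have d4 := hdeg v (hBT hvB)
      refine ⟨_, _, ?_, s1.trans hf, hr.trans s2⟩
      rw [card_erase_of_mem hvB] at hk
      omega
    · have hBt : B = {t} := by
        rw [not_nonempty_iff_eq_empty] at hne
        rw [← insert_erase htB, hne]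
        simp
      subst hBt
      have hv1 : t ∉ W \ {t} := by simp
      have hv2 : t ∉ W \ T := by simp [ht]
      have s1 := Up.step (σ := σ) (e := e) hv1
      have s2 := Up.step (σ := σ) (e := e) hv2
      have e1 : insert t (W \ {t}) = W := by
        ext a
        simp only [mem_insert, mem_sdiff, mem_singleton]
        constructor
        · rintro (rfl | h)
          · exact hTW ht
          · exact h.1
        · intro h
          by_cases hat : a = t
          · exact Or.inl hat
          · exact Or.inr ⟨h, hat⟩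
      have e2 : insert t (W \ T) = (W \ T) ∪ {t} := by
        ext a
        simp only [mem_insert, mem_union, mem_singleton]
        tauto
      rw [e1] at s1
      rw [e2] at s2
      have d3 : deg e W t ≤ deg e (W \ {t}) t + deg e ∅ t := by
        apply deg_cover
        intro u hu hut
        refine Or.inl (mem_sdiff.mpr ⟨hu, ?_⟩)
        rw [mem_singleton]
        rintro rfl
        exact he.side _ _ hut rfl
      have d5 : deg e ∅ t = 0 := cnt_false (by simp)
      have d4 := hdeg t ht
      refine ⟨_, _, ?_, s1, s2⟩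
      simp only [card_singleton]
      omega

/-- All vertices of `T` collapse onto the star with centre `c`. -/
def Col (σ : V → Bool) (c : V) (T : Finset V) (G : Geo) (φ : V → G.X) : Prop :=
  ∀ u ∈ T, (σ u = σ c → φ u = φ c) ∧ (σ u ≠ σ c → G.adj (φ c) (φ u))

lemma col_low (c : V) (G : Geo) (Φ : (V → G.X) → Prop) :
    ∀ T : Finset V, c ∉ T → (∀ u ∈ T, ∀ φ y, Φ φ → Φ (update φ u y)) →
      (1 / 4) ^ T.card * G.x ^ (∑ u ∈ T, if σ u = σ c then 2 else 1) * dens Φ ≤
        dens (fun φ => Φ φ ∧ Col σ c T G φ) := by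
  intro T
  induction T using Finset.induction_on with
  | empty =>
    intro _ _
    simp only [card_empty, pow_zero, sum_empty, mul_one, one_mul]
    exact dens_mono (fun φ h => ⟨h, by simp [Col]⟩)
  | insert u T huT ih =>
    intro hc hΦ
    rw [mem_insert, not_or] at hc
    have ih' := ih hc.2 (fun a ha => hΦ a (mem_insert_of_mem ha))
    have hx := G.x_pos
    have hn := dens_nonneg (fun φ => Φ φ ∧ Col σ c T G φ)
    have hstep : ∀ (φ : V → G.X) (y : G.X), Φ φ ∧ Col σ c T G φ →
        ((σ u = σ c → y = φ c) ∧ (σ u ≠ σ c → G.adj (φ c) y)) →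
        Φ (update φ u y) ∧ Col σ c (insert u T) G (update φ u y) := by
      intro φ y h hy
      refine ⟨hΦ u (mem_insert_self _ _) φ y h.1, ?_⟩
      intro a ha
      rw [update_of_ne hc.1]
      rcases mem_insert.mp ha with rfl | ha
      · simpa using hy
      · rw [update_of_notMem huT φ y a ha]
        exact h.2 a ha
    rw [card_insert_of_notMem huT, sum_insert huT]
    by_cases hs : σ u = σ c
    · have := dens_low u (r := 1) (Φ := fun φ => Φ φ ∧ Col σ c T G φ)
        (Ψ := fun φ => Φ φ ∧ Col σ c (insert u T) G φ)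
        (fun φ h => one_le_cnt (a := φ c) (hstep φ _ h ⟨fun _ => rfl, fun h' => absurd hs h'⟩))
      refine le_trans ?_ this
      rw [if_pos hs]
      calc _ = (1 / 4 * G.x ^ 2) * ((1 / 4) ^ T.card *
              G.x ^ (∑ u ∈ T, if σ u = σ c then 2 else 1) * dens Φ) := by ring
        _ ≤ _ := by
          have := G.r2_low
          have := dens_nonneg Φ
          gcongr
    · have := dens_low u (r := G.D) (Φ := fun φ => Φ φ ∧ Col σ c T G φ)
        (Ψ := fun φ => Φ φ ∧ Col σ c (insert u T) G φ)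
        (fun φ h => by
          rw [← G.card_adj (φ c)]
          exact cnt_mono (fun y hy => hstep φ y h ⟨fun h' => absurd h' hs, fun _ => hy⟩))
      refine le_trans ?_ this
      rw [if_neg hs, G.r1]
      calc _ = (1 / 4 * G.x) * ((1 / 4) ^ T.card *
              G.x ^ (∑ u ∈ T, if σ u = σ c then 2 else 1) * dens Φ) := by ring
        _ ≤ _ := by
          have := dens_nonneg Φ
          have h4 : 1 / 4 * G.x ≤ G.x / 2 := by linarith
          gcongr

end Pool.Agent.MP_4388f3_co
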