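import Pool.Agent.MP_4388f3_co.Count

/-! The target structures and the one-vertex counting steps. -/

set_option linter.unusedSectionVars false

namespace Pool.Agent.MP_4388f3_co

open Finset Function

/-- The properties of the incidence graph of a projective plane that the proof uses. -/
structure Geo where
  X : Type
  [fin : Fintype X]
  [ne : Nonempty X]
  side : X → Bool
  adj : X → X → Prop
  N : ℕ
  D : ℕ
  symm : ∀ x y, adj x y → adj y x
  adj_side : ∀ x y, adj x y → side x ≠ side y
  card_X : Fintype.card X = 2 * N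
  card_side : ∀ s, cnt (fun x => side x = s) = N
  card_adj : ∀ x, cnt (fun y => adj x y) = D
  uniq : ∀ x y z w, x ≠ y → adj x z → adj y z → adj x w → adj y w → z = w
  ex : ∀ x y, side x = side y → ∃ z, adj x z ∧ adj y z
  N_pos : 0 < N
  D_pos : 0 < D
  D_le : D ≤ N
  N_le : N ≤ D ^ 2
  sq_le : D ^ 2 ≤ 2 * N

attribute [instance] Geo.fin Geo.ne

/-- The edge density. -/
noncomputable def Geo.x (G : Geo) : ℝ := (G.D : ℝ) / G.N

namespace Geo

variable (G : Geo)

lemma N_pos' : (0 : ℝ) < G.N := by exact_mod_cast G.N_pos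
lemma D_pos' : (0 : ℝ) < G.D := by exact_mod_cast G.D_pos

lemma x_pos : 0 < G.x := div_pos G.D_pos' G.N_pos'

lemma x_le_one : G.x ≤ 1 := by
  unfold x
  rw [div_le_one G.N_pos']
  exact_mod_cast G.D_le

lemma card_X' : (Fintype.card G.X : ℝ) = 2 * G.N := by exact_mod_cast G.card_X

lemma r0 : (G.N : ℝ) / Fintype.card G.X = 1 / 2 := by
  rw [G.card_X']
  have := G.N_pos'
  field_simp

lemma r1 : (G.D : ℝ) / Fintype.card G.X = G.x / 2 := by
  rw [G.card_X']
  unfold x
  have := G.N_pos'
  field_simp

lemma r2_up : ((1 : ℕ) : ℝ) / Fintype.card G.X ≤ G.x ^ 2 := by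
  rw [G.card_X']
  unfold x
  have h := G.N_pos'
  have h2 : (G.N : ℝ) ≤ (G.D : ℝ) ^ 2 := by exact_mod_cast G.N_le
  rw [div_pow, div_le_div_iff₀ (by positivity) (by positivity)]
  push_cast
  nlinarith

lemma r2_low : 1 / 4 * G.x ^ 2 ≤ ((1 : ℕ) : ℝ) / Fintype.card G.X := by
  rw [G.card_X']
  unfold x
  have h := G.N_pos'
  have h2 : (G.D : ℝ) ^ 2 ≤ 2 * (G.N : ℝ) := by exact_mod_cast G.sq_le
  rw [div_pow, ← mul_div_assoc, div_le_div_iff₀ (by positivity) (by positivity)]
  push_cast
  nlinarith

lemma pow_anti {j k : ℕ} (h : j ≤ k) : G.x ^ k ≤ G.x ^ j :=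
  pow_le_pow_of_le_one G.x_pos.le G.x_le_one h

lemma side_of_adj {x y : G.X} {s : Bool} (h : G.adj x y) (hs : G.side x ≠ s) : G.side y = s := by
  have := G.adj_side x y h
  revert this hs
  cases G.side x <;> cases G.side y <;> cases s <;> simp

end Geo

variable {V : Type} [Fintype V] [DecidableEq V] (σ : V → Bool)

/-- A symmetric relation that joins only vertices on different sides. -/
structure Bip (e : V → V → Prop) : Prop where
  symm : ∀ u v, e u v → e v u
  side : ∀ u v, e u v → σ u ≠ σ v

/-- Side-preserving homomorphisms of the graph induced on `W` (free outside `W`). -/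
def Hom (e : V → V → Prop) (W : Finset V) (G : Geo) (φ : V → G.X) : Prop :=
  (∀ v ∈ W, G.side (φ v) = σ v) ∧ ∀ u ∈ W, ∀ v ∈ W, e u v → G.adj (φ u) (φ v)

/-- Homomorphisms that are injective on `W`. -/
def Inj (e : V → V → Prop) (W : Finset V) (G : Geo) (φ : V → G.X) : Prop :=
  Hom σ e W G φ ∧ ∀ u ∈ W, ∀ v ∈ W, φ u = φ v → u = v

/-- Number of neighbours of `v` inside `W`. -/
noncomputable def deg (e : V → V → Prop) (W : Finset V) (v : V) : ℕ :=
  cnt (fun u => u ∈ W ∧ e u v)

variable {σ} {e : V → V → Prop}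

lemma Hom.mono {W W' : Finset V} (h : W ⊆ W') {G : Geo} {φ : V → G.X} (hφ : Hom σ e W' G φ) :
    Hom σ e W G φ :=
  ⟨fun v hv => hφ.1 v (h hv), fun u hu v hv huv => hφ.2 u (h hu) v (h hv) huv⟩

lemma Inj.mono {W W' : Finset V} (h : W ⊆ W') {G : Geo} {φ : V → G.X} (hφ : Inj σ e W' G φ) :
    Inj σ e W G φ :=
  ⟨hφ.1.mono h, fun u hu v hv huv => hφ.2 u (h hu) v (h hv) huv⟩

omit [Fintype V] in
lemma Hom.congr {W : Finset V} {G : Geo} {φ ψ : V → G.X} (hφ : Hom σ e W G φ)
    (h : ∀ v ∈ W, φ v = ψ v) : Hom σ e W G ψ :=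
  ⟨fun v hv => h v hv ▸ hφ.1 v hv,
    fun u hu v hv huv => h u hu ▸ h v hv ▸ hφ.2 u hu v hv huv⟩

omit [Fintype V] in
lemma Inj.congr {W : Finset V} {G : Geo} {φ ψ : V → G.X} (hφ : Inj σ e W G φ)
    (h : ∀ v ∈ W, φ v = ψ v) : Inj σ e W G ψ :=
  ⟨hφ.1.congr h, fun u hu v hv huv => hφ.2 u hu v hv (by rw [h u hu, h v hv, huv])⟩

omit [Fintype V] in
lemma update_of_notMem {W : Finset V} {v : V} (hv : v ∉ W) {X : Type} (φ : V → X) (y : X) :
    ∀ u ∈ W, update φ v y u = φ u := fun u hu =>
  update_of_ne (by rintro rfl; exact hv hu) _ _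

lemma exists_of_one_le_deg {W : Finset V} {v : V} (h : 1 ≤ deg e W v) : ∃ u ∈ W, e u v := by
  by_contra hc
  push Not at hc
  have : deg e W v = 0 := cnt_false (fun u hu => hc u hu.1 hu.2)
  omega

lemma exists_of_two_le_deg {W : Finset V} {v : V} (h : 2 ≤ deg e W v) :
    ∃ u ∈ W, ∃ w ∈ W, u ≠ w ∧ e u v ∧ e w v := by
  by_contra hc
  push Not at hc
  have : deg e W v ≤ 1 := cnt_le_one (fun u w hu hw => by
    by_contra hne
    exact hc u hu.1 w hw.1 hne hu.2 hw.2)
  omega

/-- The upper counting step. -/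
lemma up_step {W : Finset V} {v : V} (hv : v ∉ W) {j : ℕ} (hj : j ≤ 2) (hd : j ≤ deg e W v)
    (G : Geo) : dens (Inj σ e (insert v W) G) ≤ G.x ^ j * dens (Inj σ e W G) := by
  have h0 : ∀ φ y, Inj σ e (insert v W) G (update φ v y) → Inj σ e W G φ := fun φ y h =>
    (h.mono (subset_insert v W)).congr (update_of_notMem hv φ y)
  have hadj : ∀ (φ : V → G.X) (y : G.X) (u : V), u ∈ W → e u v →
      Inj σ e (insert v W) G (update φ v y) → G.adj (φ u) y := by
    intro φ y u hu huv h
    have := h.1.2 u (mem_insert_of_mem hu) v (mem_insert_self v W) huv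
    rwa [update_of_notMem hv φ y u hu, update_self] at this
  have hn := dens_nonneg (Inj σ e W G)
  have hx := G.x_pos
  interval_cases j
  · simpa using dens_mono (fun φ h => h.mono (subset_insert v W))
  · obtain ⟨u, hu, huv⟩ := exists_of_one_le_deg hd
    have := dens_up v (r := G.D) h0 (fun φ _ => by
      rw [← G.card_adj (φ u)]
      exact cnt_mono (fun y h => hadj φ y u hu huv h))
    rw [G.r1] at this
    refine this.trans ?_
    gcongr
    linarith
  · obtain ⟨u, hu, w, hw, huw, huv, hwv⟩ := exists_of_two_le_deg hd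
    have := dens_up v (r := 1) h0 (fun φ hφ => by
      apply cnt_le_one
      intro y y' h h'
      exact G.uniq (φ u) (φ w) y y' (fun hh => huw (hφ.2 u hu w hw hh))
        (hadj φ y u hu huv h) (hadj φ y w hw hwv h) (hadj φ y' u hu huv h')
        (hadj φ y' w hw hwv h'))
    refine this.trans ?_
    gcongr
    exact G.r2_up

omit [Fintype V] in
lemma hom_insert (he : Bip σ e) {W : Finset V} {v : V} (hv : v ∉ W) {G : Geo} {φ : V → G.X}
    (hφ : Hom σ e W G φ) {y : G.X} (hs : G.side y = σ v)
    (hy : ∀ u ∈ W, e u v → G.adj (φ u) y) : Hom σ e (insert v W) G (update φ v y) := by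
  have hup := update_of_notMem hv φ y
  constructor
  · intro u hu
    rcases mem_insert.mp hu with rfl | hu
    · simpa using hs
    · rw [hup u hu]; exact hφ.1 u hu
  · intro a ha b hb hab
    rcases mem_insert.mp ha with rfl | ha' <;> rcases mem_insert.mp hb with rfl | hb'
    · exact absurd rfl (he.side _ _ hab)
    · rw [hup b hb', update_self]; exact G.symm _ _ (hy b hb' (he.symm _ _ hab))
    · rw [hup a ha', update_self]; exact hy a ha' hab
    · rw [hup a ha', hup b hb']; exact hφ.2 a ha' b hb' hab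

/-- The lower counting step. -/
lemma low_step (he : Bip σ e) {W : Finset V} {v : V} (hv : v ∉ W) (hd : deg e W v ≤ 2)
    (G : Geo) :
    1 / 4 * G.x ^ deg e W v * dens (Hom σ e W G) ≤ dens (Hom σ e (insert v W) G) := by
  classical
  have hn := dens_nonneg (Hom σ e W G)
  have hx := G.x_pos
  have hdeg : deg e W v = (W.filter (fun u => e u v)).card := by
    unfold deg cnt
    congr 1
    ext u
    simp
  generalize hj : deg e W v = j at hd hdeg
  interval_cases j
  · have hno : ∀ u ∈ W, ¬ e u v := by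
      intro u hu huv
      have : u ∈ W.filter (fun u => e u v) := mem_filter.mpr ⟨hu, huv⟩
      rw [card_eq_zero.mp hdeg.symm] at this
      simp at this
    have := dens_low v (r := G.N) (Φ := Hom σ e W G) (Ψ := Hom σ e (insert v W) G)
      (fun φ hφ => by
        rw [← G.card_side (σ v)]
        exact cnt_mono (fun y hy => hom_insert he hv hφ hy (fun u hu huv => absurd huv (hno u hu))))
    rw [G.r0] at this
    refine le_trans ?_ this
    gcongr
    norm_num
  · obtain ⟨u, hu⟩ := card_eq_one.mp hdeg.symm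
    have huW : u ∈ W ∧ e u v := by
      have : u ∈ W.filter (fun u => e u v) := by rw [hu]; simp
      exact mem_filter.mp this
    have honly : ∀ w ∈ W, e w v → w = u := by
      intro w hw hwv
      have : w ∈ W.filter (fun u => e u v) := mem_filter.mpr ⟨hw, hwv⟩
      rw [hu] at this
      simpa using this
    have := dens_low v (r := G.D) (Φ := Hom σ e W G) (Ψ := Hom σ e (insert v W) G)
      (fun φ hφ => by
        rw [← G.card_adj (φ u)]
        refine cnt_mono (fun y hy => hom_insert he hv hφ ?_ ?_)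
        · exact G.side_of_adj hy (by rw [hφ.1 u huW.1]; exact he.side _ _ huW.2)
        · intro w hw hwv
          rw [honly w hw hwv]; exact hy)
    rw [G.r1] at this
    refine le_trans ?_ this
    gcongr
    linarith
  · obtain ⟨u, w, huw, hu⟩ := card_eq_two.mp hdeg.symm
    have huW : u ∈ W ∧ e u v := by
      have : u ∈ W.filter (fun u => e u v) := by rw [hu]; simp
      exact mem_filter.mp this
    have hwW : w ∈ W ∧ e w v := by
      have : w ∈ W.filter (fun u => e u v) := by rw [hu]; simp
      exact mem_filter.mp this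
    have honly : ∀ z ∈ W, e z v → z = u ∨ z = w := by
      intro z hz hzv
      have : z ∈ W.filter (fun u => e u v) := mem_filter.mpr ⟨hz, hzv⟩
      rw [hu] at this
      simpa using this
    have := dens_low v (r := 1) (Φ := Hom σ e W G) (Ψ := Hom σ e (insert v W) G)
      (fun φ hφ => by
        have hs : G.side (φ u) = G.side (φ w) := by
          rw [hφ.1 u huW.1, hφ.1 w hwW.1]
          have h1 := he.side _ _ huW.2
          have h2 := he.side _ _ hwW.2
          revert h1 h2
          cases σ u <;> cases σ w <;> cases σ v <;> simp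
        obtain ⟨y, hy1, hy2⟩ := G.ex _ _ hs
        refine one_le_cnt (a := y) (hom_insert he hv hφ ?_ ?_)
        · exact G.side_of_adj hy1 (by rw [hφ.1 u huW.1]; exact he.side _ _ huW.2)
        · intro z hz hzv
          rcases honly z hz hzv with rfl | rfl
          · exact hy1
          · exact hy2)
    refine le_trans ?_ this
    gcongr
    exact G.r2_low

end Pool.Agent.MP_4388f3_co
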